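import Mathlib
import Pool.Agent.PNR.Basic

/-!
# Lattice translates meeting a compact set, on average
-/

set_option autoImplicit false

open MeasureTheory Set
open scoped Pointwise ENNReal

namespace Pool.Agent.TN

open Pool.Agent.Rog (E SymBody)

variable {n : ℕ}

/-- Some translate of the lattice `L` has at most `N` points in `A`, if
`vol A < (N + 1) covol L`. -/
lemma avg (L : Submodule ℤ (E n)) [DiscreteTopology L] [IsZLattice ℝ L] {A : Set (E n)}
    (hA : IsCompact A) {N : ℕ} (h : volume.real A < (N + 1) * ZLattice.covolume L) :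
    ∃ t : E n, ∃ S : Finset (E n), S.card ≤ N ∧ ∀ g ∈ L, g + t ∈ A → g ∈ S := by
  classical
  set b := Module.Free.chooseBasis ℤ L with hb
  set D : Set (E n) := ZSpan.fundamentalDomain (b.ofZLatticeBasis ℝ L) with hDdef
  have hD : IsAddFundamentalDomain L D volume := ZLattice.isAddFundamentalDomain b volume
  have hcov : ZLattice.covolume L = volume.real D :=
    ZLattice.covolume_eq_measure_fundamentalDomain L volume hD
  have hDpos : 0 < volume.real D := hcov ▸ ZLattice.covolume_pos L
  have hD0 : volume D ≠ 0 := fun h0 => by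
    rw [measureReal_def, h0] at hDpos
    simp at hDpos
  have hDtop : volume D ≠ ∞ := fun h0 => by
    rw [measureReal_def, h0] at hDpos
    simp at hDpos
  have : Countable L := inferInstance
  have : VAddInvariantMeasure L (E n) volume :=
    inferInstanceAs (VAddInvariantMeasure L.toAddSubgroup (E n) volume)
  have hAm : MeasurableSet A := hA.measurableSet
  have h1 : volume A = ∑' g : L, ∫⁻ x in D, A.indicator 1 (g +ᵥ x) := by
    rw [← hD.lintegral_eq_tsum'' (A.indicator 1), lintegral_indicator_one hAm]
  have h2 : volume A = ∫⁻ x in D, ∑' g : L, A.indicator 1 (g +ᵥ x) := by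
    rw [h1, lintegral_tsum]
    intro g
    exact ((measurable_one.indicator hAm).comp (measurable_const_vadd g)).aemeasurable
  have hm : Measurable fun x : E n => ∑' g : L, A.indicator (1 : E n → ℝ≥0∞) (g +ᵥ x) :=
    Measurable.tsum fun g => (measurable_one.indicator hAm).comp (measurable_const_vadd g)
  obtain ⟨x, -, hx⟩ := exists_le_setLAverage (μ := volume) hD0 hDtop hm.aemeasurable
  rw [setLAverage_eq, ← h2] at hx
  have h3 : volume A / volume D < (N + 1 : ℕ) := by
    rw [ENNReal.div_lt_iff (Or.inl hD0) (Or.inl hDtop)]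
    rw [hcov] at h
    have h4 : volume A = ENNReal.ofReal (volume.real A) := by
      rw [measureReal_def, ENNReal.ofReal_toReal hA.measure_lt_top.ne]
    have h5 : volume D = ENNReal.ofReal (volume.real D) := by
      rw [measureReal_def, ENNReal.ofReal_toReal hDtop]
    rw [h4, h5, ← ENNReal.ofReal_natCast, ← ENNReal.ofReal_mul (by positivity)]
    exact (ENNReal.ofReal_lt_ofReal_iff (by positivity)).2 (by push_cast; exact h)
  have h6 := lt_of_le_of_lt hx h3
  -- the set of the lattice points
  set T : Set L := {g | g +ᵥ x ∈ A} with hT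
  have h7 : ∀ s : Finset L, (s : Set L) ⊆ T → s.card ≤ N := by
    intro s hs
    have h8 : (s.card : ℝ≥0∞) ≤ ∑' g : L, A.indicator (1 : E n → ℝ≥0∞) (g +ᵥ x) := by
      calc (s.card : ℝ≥0∞) = ∑ g ∈ s, A.indicator (1 : E n → ℝ≥0∞) (g +ᵥ x) := by
            have h11 : ∀ g ∈ s, A.indicator (1 : E n → ℝ≥0∞) (g +ᵥ x) = 1 :=
              fun g hg => indicator_of_mem (s := A) (hs hg) _
            rw [Finset.sum_congr rfl h11]
            simp
        _ ≤ _ := ENNReal.sum_le_tsum s
    have h9 := lt_of_le_of_lt h8 h6
    have h10 : s.card < N + 1 := by exact_mod_cast h9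
    omega
  have hfin : T.Finite := by
    by_contra hinf
    obtain ⟨s, hs, hc⟩ := Set.Infinite.exists_subset_card_eq hinf (N + 1)
    have := h7 s hs
    omega
  refine ⟨x, hfin.toFinset.image (fun g : L => (g : E n)), ?_, ?_⟩
  · refine Finset.card_image_le.trans (h7 _ ?_)
    rw [Set.Finite.coe_toFinset]
  · intro g hg hgA
    rw [Finset.mem_image]
    exact ⟨⟨g, hg⟩, by rw [Set.Finite.mem_toFinset]; exact hgA, rfl⟩

end Pool.Agent.TN
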