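import Mathlib
import Pool.Agent.TN.Avg

/-!
# Partitions of a convex body by a shrunken lattice covering
-/

set_option autoImplicit false

open MeasureTheory Set Filter
open scoped Pointwise Topology

namespace Pool.Agent.TN

open Pool.Agent.Rog (E SymBody)

variable {n : ℕ}

lemma half_sub_mem {K : Set (E n)} (hK : SymBody K) {k l : E n} (hk : k ∈ K) (hl : l ∈ K) :
    (1 / 2 : ℝ) • (k - l) ∈ K := by
  have h := hK.cvx hk (hK.symm l hl) (by norm_num : (0 : ℝ) ≤ 1 / 2)
    (by norm_num : (0 : ℝ) ≤ 1 / 2) (by norm_num)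
  have e : (1 / 2 : ℝ) • (k - l) = (1 / 2 : ℝ) • k + (1 / 2 : ℝ) • -l := by module
  rw [e]
  exact h

/-- The covering lemma. -/
theorem main (L : Submodule ℤ (E n)) [DiscreteTopology L] [IsZLattice ℝ L] {F K : Set (E n)}
    (hF : IsCompact F) (hK : SymBody K) (hcov : ∀ x : E n, ∃ k ∈ K, ∃ l ∈ L, x = k + l) {N : ℕ}
    (h : volume.real (F + K) < (N + 1) * ZLattice.covolume L) :
    ∃ c : ℝ, 0 < c ∧ c < 1 ∧ ∃ A : Fin N → Set (E n), (⋃ i, A i) = F ∧
      ∀ i, ∀ x ∈ A i, ∀ y ∈ A i, ∃ k ∈ K, x - y = (2 * c) • k := by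
  classical
  -- the stretching factor
  obtain ⟨s, hs1, hs⟩ : ∃ s : ℝ, 1 < s ∧
      s ^ n * volume.real (F + K) < (N + 1) * ZLattice.covolume L := by
    have hc : ContinuousAt (fun s : ℝ => s ^ n * volume.real (F + K)) 1 := by fun_prop
    have h1 : ∀ᶠ s : ℝ in 𝓝 1, s ^ n * volume.real (F + K) < (N + 1) * ZLattice.covolume L := by
      refine hc.eventually_lt continuousAt_const ?_
      simpa using h
    have h2 : ∀ᶠ s : ℝ in 𝓝[>] 1, s ^ n * volume.real (F + K) <
        (N + 1) * ZLattice.covolume L := h1.filter_mono nhdsWithin_le_nhds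
    obtain ⟨s, hs, hs1⟩ := (h2.and self_mem_nhdsWithin).exists
    exact ⟨s, hs1, hs⟩
  have hs0 : 0 < s := by linarith
  have hAc : IsCompact (s • F + K) := (hF.smul s).add hK.cpt
  have h0 : (0 : E n) ∈ K := Pool.Agent.PNR.zero_mem hK
  have hsub : s • F + K ⊆ s • (F + K) := by
    rintro _ ⟨_, ⟨x, hx, rfl⟩, k, hk, rfl⟩
    refine ⟨x + (1 / s) • k, Set.add_mem_add hx ?_, ?_⟩
    · have h3 := hK.cvx h0 hk (by
        have : 1 / s ≤ 1 := by
          rw [div_le_one hs0]
          exact hs1.le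
        linarith : (0 : ℝ) ≤ 1 - 1 / s) (by positivity : (0 : ℝ) ≤ 1 / s) (by ring)
      simpa using h3
    · change s • (x + (1 / s) • k) = s • x + k
      rw [smul_add, smul_smul, mul_one_div_cancel hs0.ne', one_smul]
  have hvol : volume.real (s • F + K) < (N + 1) * ZLattice.covolume L := by
    refine lt_of_le_of_lt ?_ hs
    rw [← Pool.Agent.HRP.BAD_.vol_smul (F + K) s hs0.le]
    exact measureReal_mono hsub ((hF.add hK.cpt).smul s).measure_lt_top.ne
  obtain ⟨t, S, hSc, hS⟩ := avg L hAc hvol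
  refine ⟨1 / s, by positivity, by rw [div_lt_one hs0]; exact hs1,
    fun i => {x | x ∈ F ∧ ∃ g, S.toList[(i : ℕ)]? = some g ∧ s • x - (g + t) ∈ K}, ?_, ?_⟩
  · apply Set.Subset.antisymm
    · exact Set.iUnion_subset fun i x hx => hx.1
    · intro x hx
      obtain ⟨k, hk, l, hl, hkl⟩ := hcov (s • x - t)
      have h4 : l + t ∈ s • F + K := by
        refine ⟨s • x, Set.smul_mem_smul_set hx, -k, hK.symm k hk, ?_⟩
        change s • x + -k = l + t
        have : s • x = k + l + t := by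
          rw [← hkl, sub_add_cancel]
        rw [this]
        abel
      have h5 : l ∈ S.toList := by
        rw [Finset.mem_toList]
        exact hS l hl h4
      obtain ⟨i, hi⟩ := List.mem_iff_getElem?.1 h5
      have hiN : i < N := by
        have h6 : i < S.toList.length := by
          rw [List.getElem?_eq_some_iff] at hi
          exact hi.1
        rw [Finset.length_toList] at h6
        omega
      refine Set.mem_iUnion.2 ⟨⟨i, hiN⟩, hx, l, hi, ?_⟩
      have : s • x - (l + t) = k := by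
        have h7 : s • x = k + l + t := by
          rw [← hkl, sub_add_cancel]
        rw [h7]
        abel
      rw [this]
      exact hk
  · rintro i x ⟨-, g, hg, hx⟩ y ⟨-, g', hg', hy⟩
    have hgg : g = g' := by
      rw [hg] at hg'
      exact Option.some.inj hg'
    subst hgg
    refine ⟨_, half_sub_mem hK hx hy, ?_⟩
    have e : (s • x - (g + t)) - (s • y - (g + t)) = s • (x - y) := by
      rw [smul_sub]
      abel
    have e2 : 2 * (1 / s) * (1 / 2) * s = 1 := by field_simp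
    rw [e, smul_smul, smul_smul, e2, one_smul]

/-- the volume of `F + K` -/
lemma vol_add_le {F K : Set (E n)} (hn : 1 ≤ n) (hF : IsCompact F) (hFc : Convex ℝ F)
    (hFn : F.Nonempty) (hK : SymBody K) {lam : ℝ} (hlam : 0 ≤ lam)
    (h : ∀ x ∈ F, ∀ y ∈ F, ∃ k ∈ K, x - y = (2 * lam) • k) :
    volume.real (F + K) ≤ (1 + lam) ^ n * volume.real K := by
  refine Pool.Agent.PNR.isodiam hn hK (hF.add hK.cpt) (hFc.add hK.cvx)
    (hFn.add ⟨0, Pool.Agent.PNR.zero_mem hK⟩) (by linarith) ?_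
  rintro _ ⟨x, hx, k, hk, rfl⟩ _ ⟨y, hy, l, hl, rfl⟩
  obtain ⟨m, hm, hxy⟩ := h x hx y hy
  have h1 : x - y ∈ (2 * lam) • K := ⟨m, hm, hxy.symm⟩
  have h2 : k - l ∈ (2 : ℝ) • K := by
    refine ⟨_, half_sub_mem hK hk hl, ?_⟩
    change (2 : ℝ) • (1 / 2 : ℝ) • (k - l) = k - l
    rw [smul_smul]
    norm_num
  have h3 := Pool.Agent.PNR.add_mem_smul hK (by linarith : (0 : ℝ) ≤ 2 * lam)
    (by norm_num : (0 : ℝ) ≤ 2) h1 h2
  have e : x + k - (y + l) = (x - y) + (k - l) := by abel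
  rw [show 2 * (1 + lam) = 2 * lam + 2 by ring]
  change x + k - (y + l) ∈ _
  rw [e]
  exact h3

/-- The strict inequality if `F - F` is smaller than `2 K`. -/
lemma vol_add_lt {F K : Set (E n)} (hn : 1 ≤ n) (hF : IsCompact F) (hFc : Convex ℝ F)
    (hFn : F.Nonempty) (hK : SymBody K)
    (h : ∀ x ∈ F, ∀ y ∈ F, ∃ k ∈ K, x - y = (2 : ℝ) • k)
    (hne : ∃ k ∈ K, ∀ x ∈ F, ∀ y ∈ F, x - y ≠ (2 : ℝ) • k) :
    volume.real (F + K) < 2 ^ n * volume.real K := by
  obtain ⟨k0, hk0, hk0F⟩ := hne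
  have h0 : (0 : E n) ∈ K := Pool.Agent.PNR.zero_mem hK
  have hA : Pool.Agent.PNR.Body (F + K) := by
    refine ⟨hF.add hK.cpt, hFc.add hK.cvx, ?_⟩
    obtain ⟨x, hx⟩ := hFn
    obtain ⟨k, hk⟩ := hK.int
    have h1 : IsOpen (F + interior K) := isOpen_interior.add_left
    exact ⟨x + k, interior_maximal (Set.add_subset_add_left interior_subset) h1
      (Set.add_mem_add hx hk)⟩
  have hC : SymBody (Pool.Agent.PNR.KK (F + K)) := Pool.Agent.PNR.KK_sym hA
  have h1 : volume.real (F + K) ≤ volume.real (Pool.Agent.PNR.KK (F + K)) := by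
    have h2 := Pool.Agent.PNR.isodiam hn hC hA.cpt hA.cvx hA.nonempty (zero_le_one (α := ℝ))
      (fun x hx y hy => by
        rw [mul_one]
        exact Pool.Agent.PNR.sub_mem (F + K) hx hy)
    simpa using h2
  refine lt_of_le_of_lt h1 ?_
  rw [← Pool.Agent.HRP.BAD_.vol_smul K 2 (by norm_num)]
  have h2K : SymBody ((2 : ℝ) • K) := by
    refine ⟨hK.cpt.smul 2, hK.cvx.smul 2, ?_, ?_⟩
    · rw [interior_smul₀ (by norm_num : (2 : ℝ) ≠ 0)]
      exact hK.int.smul_set
    · rintro _ ⟨k, hk, rfl⟩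
      exact ⟨-k, hK.symm k hk, by simp⟩
  -- the difference body of `F`
  have hBc : IsCompact (Pool.Agent.PNR.KK F) := Pool.Agent.PNR.KK_compact hF
  have hBv : Convex ℝ (Pool.Agent.PNR.KK F) := Pool.Agent.PNR.KK_convex hFc
  have hk0B : k0 ∉ Pool.Agent.PNR.KK F := by
    rintro ⟨x, hx, y, hy, hxy⟩
    refine hk0F x hx y hy ?_
    rw [hxy, smul_smul]
    norm_num
  obtain ⟨f, u, hfu, hu⟩ := geometric_hahn_banach_closed_point hBv hBc.isClosed hk0B
  obtain ⟨k1, hk1, hmax⟩ := hK.cpt.exists_isMaxOn ⟨0, h0⟩ f.continuous.continuousOn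
  set H : Set (E n) := {z | u + f k1 < f z} with hH
  have hHo : IsOpen H := isOpen_lt continuous_const f.continuous
  have hdec : ∀ z ∈ Pool.Agent.PNR.KK (F + K), z ∈ (2 : ℝ) • K ∧ z ∉ H := by
    rintro _ ⟨_, ⟨x, hx, k, hk, rfl⟩, _, ⟨y, hy, l, hl, rfl⟩, rfl⟩
    have e : (1 / 2 : ℝ) • (x + k - (y + l)) =
        (1 / 2 : ℝ) • (x - y) + (1 / 2 : ℝ) • (k - l) := by module
    have hb : (1 / 2 : ℝ) • (x - y) ∈ Pool.Agent.PNR.KK F := ⟨x, hx, y, hy, rfl⟩
    have hm : (1 / 2 : ℝ) • (k - l) ∈ K := half_sub_mem hK hk hl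
    constructor
    · obtain ⟨m, hm2, hxy⟩ := h x hx y hy
      have hb2 : (1 / 2 : ℝ) • (x - y) ∈ K := by
        rw [hxy, smul_smul]
        norm_num
        exact hm2
      change (1 / 2 : ℝ) • (x + k - (y + l)) ∈ _
      rw [e]
      have h3 := Pool.Agent.PNR.add_mem_smul hK zero_le_one zero_le_one
        (show _ ∈ (1 : ℝ) • K by rw [one_smul]; exact hb2)
        (show _ ∈ (1 : ℝ) • K by rw [one_smul]; exact hm)
      rw [show (1 : ℝ) + 1 = 2 by norm_num] at h3
      exact h3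
    · change ¬ (u + f k1 < f ((1 / 2 : ℝ) • (x + k - (y + l))))
      rw [e, map_add]
      have h4 := hfu _ hb
      have h5 : f ((1 / 2 : ℝ) • (k - l)) ≤ f k1 := hmax hm
      linarith
  have hp : k0 + k1 ∈ (2 : ℝ) • K := by
    have h3 := Pool.Agent.PNR.add_mem_smul hK zero_le_one zero_le_one
      (show k0 ∈ (1 : ℝ) • K by rw [one_smul]; exact hk0)
      (show k1 ∈ (1 : ℝ) • K by rw [one_smul]; exact hk1)
    rw [show (1 : ℝ) + 1 = 2 by norm_num] at h3
    exact h3
  have hpH : k0 + k1 ∈ H := by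
    change u + f k1 < f (k0 + k1)
    rw [map_add]
    linarith
  have hpc : k0 + k1 ∈ closure (interior ((2 : ℝ) • K)) := by
    rw [h2K.cvx.closure_interior_eq_closure_of_nonempty_interior h2K.int]
    exact subset_closure hp
  obtain ⟨q, hqH, hqi⟩ := mem_closure_iff.1 hpc H hHo hpH
  have hO : IsOpen (H ∩ interior ((2 : ℝ) • K)) := hHo.inter isOpen_interior
  have hOpos : 0 < volume.real (H ∩ interior ((2 : ℝ) • K)) := by
    rw [measureReal_def]
    refine ENNReal.toReal_pos (hO.measure_pos volume ⟨q, hqH, hqi⟩).ne' ?_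
    exact (lt_of_le_of_lt (measure_mono (inter_subset_right.trans interior_subset))
      h2K.cpt.measure_lt_top).ne
  have hdis : Disjoint (Pool.Agent.PNR.KK (F + K)) (H ∩ interior ((2 : ℝ) • K)) := by
    rw [Set.disjoint_left]
    exact fun z hz hz2 => (hdec z hz).2 hz2.1
  have hun : Pool.Agent.PNR.KK (F + K) ∪ (H ∩ interior ((2 : ℝ) • K)) ⊆ (2 : ℝ) • K :=
    Set.union_subset (fun z hz => (hdec z hz).1) (inter_subset_right.trans interior_subset)
  have h6 := measureReal_mono hun h2K.cpt.measure_lt_top.ne (μ := volume)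
  rw [measureReal_union hdis hO.measurableSet hC.cpt.measure_lt_top.ne
    (lt_of_le_of_lt (measure_mono (inter_subset_right.trans interior_subset))
      h2K.cpt.measure_lt_top).ne] at h6
  linarith

end Pool.Agent.TN
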