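import Mathlib
import Pool.Agent.TN.Main
import Pool.Agent.ShadowA.PLB

/-!
# The convex bodies whose difference body is as small as possible
-/

set_option autoImplicit false

open MeasureTheory Set Filter
open scoped Pointwise Topology ENNReal

namespace Pool.Agent.TN

open Pool.Agent.Rog (E SymBody)
open Pool.Agent.PNR (Body KK)

variable {n : ℕ}

/-- The Prekopa-Leindler inequality on `A × (-A)`. -/
lemma pl_diff {A C : Set (E n)} (hA : IsCompact A) (hC : IsCompact C) {f g h : E n → ℝ}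
    (hf : Continuous f) (hg : Continuous g) (hh : Continuous h)
    (f0 : ∀ x ∈ A, 0 ≤ f x) (g0 : ∀ x ∈ A, 0 ≤ g x) (h0 : ∀ x ∈ C, 0 ≤ h x)
    (hAC : ∀ x ∈ A, ∀ y ∈ A, (1 / 2 : ℝ) • (x - y) ∈ C)
    (H : ∀ x ∈ A, ∀ y ∈ A, f x * g y ≤ h ((1 / 2 : ℝ) • (x - y)) ^ 2) :
    (∫ x in A, f x) * (∫ x in A, g x) ≤ (∫ x in C, h x) ^ 2 := by
  have key : ∀ (S : Set (E n)) (F : E n → ℝ), IsCompact S → Continuous F → (∀ x ∈ S, 0 ≤ F x) →
      ENNReal.ofReal (∫ x in S, F x) = ∫⁻ x, S.indicator (fun x => ENNReal.ofReal (F x)) x := by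
    intro S F hS hF hF0
    rw [lintegral_indicator hS.measurableSet]
    refine ofReal_integral_eq_lintegral_ofReal (hF.continuousOn.integrableOn_compact hS) ?_
    exact (ae_restrict_iff' hS.measurableSet).2 (ae_of_all _ hF0)
  have hm : ∀ (S : Set (E n)) (F : E n → ℝ), IsCompact S → Continuous F →
      Measurable (S.indicator (fun x => ENNReal.ofReal (F x))) := by
    intro S F hS hF
    exact (ENNReal.measurable_ofReal.comp hF.measurable).indicator hS.measurableSet
  have h1 := Pool.Agent.ShadowA.PLB_.prekopa (n := n)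
    (f := A.indicator (fun x => ENNReal.ofReal (f x)))
    (g := fun y => A.indicator (fun x => ENNReal.ofReal (g x)) (-y))
    (h := C.indicator (fun x => ENNReal.ofReal (h x))) (hm A f hA hf)
    ((hm A g hA hg).comp measurable_neg) (hm C h hC hh) (by
      intro x y
      by_cases hx : x ∈ A
      · by_cases hy : -y ∈ A
        · have e : x - -y = x + y := by abel
          have h2 := hAC x hx (-y) hy
          have h3 := H x hx (-y) hy
          rw [e] at h2 h3
          rw [indicator_of_mem hx, indicator_of_mem hy, indicator_of_mem h2,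
            ← ENNReal.ofReal_mul (f0 x hx), ← ENNReal.ofReal_pow (h0 _ h2)]
          exact ENNReal.ofReal_le_ofReal h3
        · rw [indicator_of_notMem hy]
          simp
      · rw [indicator_of_notMem hx]
        simp)
  rw [lintegral_neg_eq_self (μ := volume)
    (fun y => A.indicator (fun x => ENNReal.ofReal (g x)) y)] at h1
  rw [← key A f hA hf f0, ← key A g hA hg g0, ← key C h hC hh h0,
    ← ENNReal.ofReal_mul (setIntegral_nonneg hA.measurableSet f0),
    ← ENNReal.ofReal_pow (setIntegral_nonneg hC.measurableSet h0)] at h1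
  exact (ENNReal.ofReal_le_ofReal_iff (by positivity)).1 h1

lemma lim_le {a c k t0 : ℝ} (ht0 : 0 < t0) (h : ∀ t, 0 < t → t ≤ t0 → a ≤ c + t * k) : a ≤ c := by
  by_contra hcon
  push Not at hcon
  have hk : 0 < 2 * (|k| + 1) := by positivity
  set t := min t0 ((a - c) / (2 * (|k| + 1))) with ht
  have htp : 0 < t := lt_min ht0 (div_pos (by linarith) hk)
  have h1 := h t htp (min_le_left _ _)
  have h2 : t * (2 * (|k| + 1)) ≤ a - c := by
    have := min_le_right t0 ((a - c) / (2 * (|k| + 1)))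
    rw [← ht, le_div_iff₀ hk] at this
    exact this
  have h3 : t * k ≤ t * |k| := mul_le_mul_of_nonneg_left (le_abs_self k) htp.le
  nlinarith

lemma exp_lower {s M t : ℝ} (hs : |s| ≤ M) (ht : 0 ≤ t) (htM : t * M ≤ 1) :
    |Real.exp (t * s) - (1 + t * s + t ^ 2 * s ^ 2 / 2)| ≤ t ^ 3 * M ^ 3 := by
  have hM : 0 ≤ M := (abs_nonneg s).trans hs
  have h1 : |t * s| ≤ t * M := by
    rw [abs_mul, abs_of_nonneg ht]
    exact mul_le_mul_of_nonneg_left hs ht
  have h2 := Real.exp_bound (h1.trans htM) (n := 3) (by norm_num)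
  have e : ∑ m ∈ Finset.range 3, (t * s) ^ m / (m.factorial : ℝ) =
      1 + t * s + t ^ 2 * s ^ 2 / 2 := by
    simp [Finset.sum_range_succ, Nat.factorial]
    ring
  rw [e] at h2
  refine h2.trans ?_
  have h3 : |t * s| ^ 3 ≤ (t * M) ^ 3 := pow_le_pow_left₀ (abs_nonneg _) h1 3
  have h4 : ((3 : ℕ).succ / ((3 : ℕ).factorial * (3 : ℕ)) : ℝ) ≤ 1 := by
    norm_num [Nat.factorial]
  calc |t * s| ^ 3 * ((3 : ℕ).succ / ((3 : ℕ).factorial * (3 : ℕ)) : ℝ)
      ≤ (t * M) ^ 3 * 1 := by
        refine mul_le_mul h3 h4 ?_ (by positivity)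
        positivity
    _ = t ^ 3 * M ^ 3 := by ring

lemma int_quad {S : Set (E n)} (hS : IsCompact S) (i : Fin n) (a b c : ℝ) :
    ∫ x in S, (a + (b * x i + c * (x i) ^ 2)) =
      volume.real S * a + (b * (∫ x in S, x i) + c * (∫ x in S, (x i) ^ 2)) := by
  have hint : ∀ (F : E n → ℝ), Continuous F → IntegrableOn F S volume :=
    fun F hF => hF.continuousOn.integrableOn_compact hS
  have h1 : ∫ x in S, (a + (b * x i + c * (x i) ^ 2)) =
      (∫ _ in S, a) + ∫ x in S, (b * x i + c * (x i) ^ 2) :=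
    integral_add (hint _ (by fun_prop)) (hint _ (by fun_prop))
  have h2 : ∫ x in S, (b * x i + c * (x i) ^ 2) =
      (∫ x in S, b * x i) + ∫ x in S, c * (x i) ^ 2 :=
    integral_add (hint _ (by fun_prop)) (hint _ (by fun_prop))
  rw [h1, h2, integral_const_mul, integral_const_mul, setIntegral_const, smul_eq_mul]

/-- The second moments. -/
lemma second {A : Set (E n)} (hA : Body A) (hv : volume.real (KK A) = volume.real A)
    (i : Fin n) (hc : ∫ x in A, x i = 0) :
    ∫ x in A, (x i) ^ 2 ≤ ∫ x in KK A, (x i) ^ 2 := by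
  have hC : SymBody (KK A) := Pool.Agent.PNR.KK_sym hA
  have hcont : Continuous (fun x : E n => x i) := by fun_prop
  set V := volume.real A with hV
  -- bound
  obtain ⟨M, hM0, hMA, hMC⟩ : ∃ M : ℝ, 0 < M ∧ (∀ x ∈ A, |x i| ≤ M) ∧
      (∀ x ∈ KK A, |x i| ≤ M) := by
    obtain ⟨M, hM⟩ := hA.cpt.exists_bound_of_continuousOn hcont.continuousOn
    obtain ⟨M', hM'⟩ := hC.cpt.exists_bound_of_continuousOn hcont.continuousOn
    refine ⟨max (max M M') 1, by positivity, fun x hx => ?_, fun x hx => ?_⟩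
    · exact (hM x hx).trans ((le_max_left _ _).trans (le_max_left _ _))
    · exact (hM' x hx).trans ((le_max_right _ _).trans (le_max_left _ _))
  have hint : ∀ (S : Set (E n)) (F : E n → ℝ), IsCompact S → Continuous F →
      IntegrableOn F S volume := fun S F hS hF => hF.continuousOn.integrableOn_compact hS
  have hcC : ∫ x in KK A, x i = 0 := by
    have h1 : ∫ x in KK A, x i = ∫ x, (KK A).indicator (fun x => x i) x :=
      (integral_indicator hC.cpt.measurableSet).symm
    have h2 := integral_neg_eq_self (fun x => (KK A).indicator (fun x => x i) x)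
      (volume : Measure (E n))
    have h3 : (fun x : E n => (KK A).indicator (fun x => x i) (-x)) =
        fun x => -((KK A).indicator (fun x => x i) x) := by
      ext x
      by_cases hx : x ∈ KK A
      · rw [indicator_of_mem hx, indicator_of_mem (hC.symm x hx)]
        rfl
      · rw [indicator_of_notMem hx, indicator_of_notMem (fun h => hx (by
          have := hC.symm _ h
          rwa [neg_neg] at this))]
        simp
    rw [h3, integral_neg] at h2
    rw [h1]
    linarith
  have hVC : volume.real (KK A) = V := hv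
  -- the main inequality
  have main : ∀ t : ℝ, 0 < t → t ≤ 1 / M → ∫ x in A, (x i) ^ 2 ≤
      (∫ x in KK A, (x i) ^ 2) + t * (4 * M ^ 3 * V) := by
    intro t ht0 ht1
    have htM : t * M ≤ 1 := by rwa [le_div_iff₀ hM0] at ht1
    have hpl := pl_diff hA.cpt hC.cpt (f := fun x => Real.exp (t * x i))
      (g := fun x => Real.exp (t * (-(x i)))) (h := fun x => Real.exp (t * x i))
      (by fun_prop) (by fun_prop) (by fun_prop) (fun x _ => (Real.exp_pos _).le)
      (fun x _ => (Real.exp_pos _).le) (fun x _ => (Real.exp_pos _).le)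
      (fun x hx y hy => ⟨x, hx, y, hy, rfl⟩) (fun x hx y hy => by
        have e : ((1 / 2 : ℝ) • (x - y)) i = (1 / 2) * (x i - y i) := by simp
        rw [e, ← Real.exp_add, ← Real.exp_nat_mul]
        apply le_of_eq
        congr 1
        push_cast
        ring)
    have hlow : ∀ (σ : ℝ), |σ| = 1 → V + t ^ 2 * (∫ x in A, (x i) ^ 2) / 2 - t ^ 3 * M ^ 3 * V ≤
        ∫ x in A, Real.exp (t * (σ * x i)) := by
      intro σ hσ
      have h1 : ∫ x in A, ((1 + t * (σ * x i) + t ^ 2 * (x i) ^ 2 / 2) - t ^ 3 * M ^ 3) ≤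
          ∫ x in A, Real.exp (t * (σ * x i)) := by
        refine setIntegral_mono_on (hint _ _ hA.cpt (by fun_prop)) (hint _ _ hA.cpt (by fun_prop))
          hA.cpt.measurableSet ?_
        intro x hx
        have h2 := exp_lower (s := σ * x i) (M := M) (by
          rw [abs_mul, hσ, one_mul]
          exact hMA x hx) ht0.le htM
        have h3 := (abs_le.1 h2).1
        have h4 : σ ^ 2 = 1 := by
          rw [← sq_abs, hσ]
          norm_num
        rw [mul_pow σ, h4, one_mul] at h3
        linarith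
      refine le_trans (le_of_eq ?_) h1
      have e1 : ∫ x in A, ((1 + t * (σ * x i) + t ^ 2 * (x i) ^ 2 / 2) - t ^ 3 * M ^ 3) =
          ∫ x in A, ((1 - t ^ 3 * M ^ 3) + ((t * σ) * x i + (t ^ 2 / 2) * (x i) ^ 2)) := by
        congr 1
        ext x
        ring
      rw [e1, int_quad hA.cpt, hc, ← hV]
      ring
    have hup : ∫ x in KK A, Real.exp (t * x i) ≤
        V + t ^ 2 * (∫ x in KK A, (x i) ^ 2) / 2 + t ^ 3 * M ^ 3 * V := by
      have h1 : ∫ x in KK A, Real.exp (t * x i) ≤
          ∫ x in KK A, ((1 + t ^ 3 * M ^ 3) + (t * x i + (t ^ 2 / 2) * (x i) ^ 2)) := by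
        refine setIntegral_mono_on (hint _ _ hC.cpt (by fun_prop)) (hint _ _ hC.cpt (by fun_prop))
          hC.cpt.measurableSet ?_
        intro x hx
        have h2 := exp_lower (s := x i) (M := M) (hMC x hx) ht0.le htM
        have h3 := (abs_le.1 h2).2
        linarith
      refine h1.trans (le_of_eq ?_)
      rw [int_quad hC.cpt, hcC, hVC]
      ring
    have hl1 := hlow 1 (by norm_num)
    have hl2 := hlow (-1) (by norm_num)
    have e1 : (fun x : E n => Real.exp (t * (1 * x i))) = fun x => Real.exp (t * x i) := by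
      ext x
      rw [one_mul]
    have e2 : (fun x : E n => Real.exp (t * (-1 * x i))) = fun x => Real.exp (t * (-(x i))) := by
      ext x
      rw [neg_one_mul]
    rw [e1] at hl1
    rw [e2] at hl2
    set m := ∫ x in A, (x i) ^ 2 with hm
    set mC := ∫ x in KK A, (x i) ^ 2 with hmC
    have hV0 : 0 ≤ V := measureReal_nonneg
    have hm0 : 0 ≤ m := setIntegral_nonneg hA.cpt.measurableSet (fun x _ => sq_nonneg _)
    have hmC0 : 0 ≤ mC := setIntegral_nonneg hC.cpt.measurableSet (fun x _ => sq_nonneg _)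
    have hL : 0 ≤ V + t ^ 2 * m / 2 - t ^ 3 * M ^ 3 * V := by
      have h5 : t ^ 3 * M ^ 3 ≤ 1 := by
        rw [← mul_pow]
        exact pow_le_one₀ (by positivity) htM
      have h6 : t ^ 3 * M ^ 3 * V ≤ V := by nlinarith
      have h7 : 0 ≤ t ^ 2 * m / 2 := by positivity
      linarith
    have hU0 : 0 ≤ ∫ x in KK A, Real.exp (t * x i) :=
      setIntegral_nonneg hC.cpt.measurableSet (fun x _ => (Real.exp_pos _).le)
    have h8 : (V + t ^ 2 * m / 2 - t ^ 3 * M ^ 3 * V) ^ 2 ≤
        (V + t ^ 2 * mC / 2 + t ^ 3 * M ^ 3 * V) ^ 2 := by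
      calc (V + t ^ 2 * m / 2 - t ^ 3 * M ^ 3 * V) ^ 2
          = (V + t ^ 2 * m / 2 - t ^ 3 * M ^ 3 * V) *
            (V + t ^ 2 * m / 2 - t ^ 3 * M ^ 3 * V) := by ring
        _ ≤ _ := mul_le_mul hl1 hl2 hL (hL.trans hl1)
        _ ≤ _ := hpl
        _ ≤ _ := pow_le_pow_left₀ hU0 hup 2
    have h9 : V + t ^ 2 * m / 2 - t ^ 3 * M ^ 3 * V ≤ V + t ^ 2 * mC / 2 + t ^ 3 * M ^ 3 * V :=
      le_of_sq_le_sq h8 (by positivity)
    have h10 : t ^ 2 * m ≤ t ^ 2 * (mC + t * (4 * M ^ 3 * V)) := by linarith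
    exact le_of_mul_le_mul_left h10 (by positivity)
  exact lim_le (by positivity) main


lemma norm_sq_int {S : Set (E n)} (hS : IsCompact S) :
    ∫ x in S, ‖x‖ ^ 2 = ∑ i, ∫ x in S, (x i) ^ 2 := by
  rw [← integral_finsetSum]
  · congr 1
    ext x
    rw [EuclideanSpace.real_norm_sq_eq]
  · intro i _
    exact (by fun_prop : Continuous fun x : E n => (x i) ^ 2).continuousOn.integrableOn_compact hS

/-- A convex body with centroid `0` and small difference body is symmetric: the inclusion. -/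
lemma sub_KK {A : Set (E n)} (hA : Body A) (hv : volume.real (KK A) = volume.real A)
    (hc : ∀ i, ∫ x in A, x i = 0) : A ⊆ KK A := by
  have hC : SymBody (KK A) := Pool.Agent.PNR.KK_sym hA
  set C := KK A with hCdef
  set V := volume.real A with hV
  have hV0 : 0 < V := by
    rw [hV, measureReal_def]
    refine ENNReal.toReal_pos ?_ hA.cpt.measure_lt_top.ne
    obtain ⟨o, ho⟩ := hA.int
    exact (lt_of_lt_of_le (isOpen_interior.measure_pos volume ⟨o, ho⟩)
      (measure_mono interior_subset)).ne'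
  have hmom : ∫ x in A, ‖x‖ ^ 2 ≤ ∫ x in C, ‖x‖ ^ 2 := by
    rw [norm_sq_int hA.cpt, norm_sq_int hC.cpt]
    exact Finset.sum_le_sum fun i _ => second hA hv i (hc i)
  set m := ∫ x in A, ‖x‖ ^ 2 with hm
  set mC := ∫ x in C, ‖x‖ ^ 2 with hmC
  set d : E n → ℝ := fun x => Metric.infDist x C with hd
  have hdc : Continuous d := Metric.continuous_infDist_pt C
  have hd0 : ∀ x, 0 ≤ d x := fun x => Metric.infDist_nonneg
  set D := ∫ x in A, d x with hD
  have hint : ∀ (S : Set (E n)) (F : E n → ℝ), IsCompact S → Continuous F →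
      IntegrableOn F S volume := fun S F hS hF => hF.continuousOn.integrableOn_compact hS
  obtain ⟨M, hM0, hMA, hMC⟩ : ∃ M : ℝ, 0 < M ∧ (∀ x ∈ A, ‖x‖ ≤ M) ∧
      (∀ x ∈ C, ‖x‖ ≤ M) := by
    obtain ⟨M, hM⟩ := hA.cpt.exists_bound_of_continuousOn (continuousOn_id (s := A))
    obtain ⟨M', hM'⟩ := hC.cpt.exists_bound_of_continuousOn (continuousOn_id (s := C))
    refine ⟨max (max M M') 1, by positivity, fun x hx => ?_, fun x hx => ?_⟩
    · exact (hM x hx).trans ((le_max_left _ _).trans (le_max_left _ _))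
    · exact (hM' x hx).trans ((le_max_right _ _).trans (le_max_left _ _))
  -- first variation
  have key : ∀ ε : ℝ, 0 < ε → V * (-(2 * m) + ε * D) ≤ V * (-(2 * mC) + V * ε ^ 2 / 8) := by
    intro ε hε
    refine lim_le (t0 := 1 / M ^ 2) (k := (-mC + V * ε ^ 2 / 16) ^ 2 - (-m + ε * D) * (-m))
      (by positivity) ?_
    intro t ht0 ht1
    have htM : t * M ^ 2 ≤ 1 := by rwa [le_div_iff₀ (by positivity)] at ht1
    have hb : ∀ x : E n, ‖x‖ ≤ M → t * ‖x‖ ^ 2 ≤ 1 := by
      intro x hx
      have h1 : ‖x‖ ^ 2 ≤ M ^ 2 := pow_le_pow_left₀ (norm_nonneg x) hx 2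
      have h2 := mul_le_mul_of_nonneg_left h1 ht0.le
      linarith
    have hpl := pl_diff hA.cpt hC.cpt (f := fun x => 1 + t * (-‖x‖ ^ 2 + ε * d x))
      (g := fun x => 1 + t * (-‖x‖ ^ 2)) (h := fun x => 1 + t * (-‖x‖ ^ 2 + ε ^ 2 / 16))
      (by fun_prop) (by fun_prop) (by fun_prop)
      (fun x hx => by
        have h1 := hb x (hMA x hx)
        have h2 : 0 ≤ t * (ε * d x) := mul_nonneg ht0.le (mul_nonneg hε.le (hd0 x))
        change 0 ≤ 1 + t * (-‖x‖ ^ 2 + ε * d x)
        nlinarith)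
      (fun x hx => by
        have h1 := hb x (hMA x hx)
        change 0 ≤ 1 + t * (-‖x‖ ^ 2)
        nlinarith)
      (fun x hx => by
        have h1 := hb x (hMC x hx)
        have h2 : 0 ≤ t * (ε ^ 2 / 16) := by positivity
        change 0 ≤ 1 + t * (-‖x‖ ^ 2 + ε ^ 2 / 16)
        nlinarith)
      (fun x hx y hy => ⟨x, hx, y, hy, rfl⟩) (fun x hx y hy => by
        have hz : (1 / 2 : ℝ) • (x - y) ∈ C := ⟨x, hx, y, hy, rfl⟩
        have h1 : d x ≤ ‖(1 / 2 : ℝ) • (x + y)‖ := by
          have h2 := Metric.infDist_le_dist_of_mem (x := x) hz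
          rw [dist_eq_norm] at h2
          have e : x - (1 / 2 : ℝ) • (x - y) = (1 / 2 : ℝ) • (x + y) := by module
          rw [e] at h2
          exact h2
        have h3 : ‖(1 / 2 : ℝ) • (x - y)‖ ^ 2 + ‖(1 / 2 : ℝ) • (x + y)‖ ^ 2 =
            (‖x‖ ^ 2 + ‖y‖ ^ 2) / 2 := by
          rw [norm_smul, norm_smul, mul_pow, mul_pow]
          have h4 := parallelogram_law_with_norm ℝ x y
          have h5 : ‖(1 / 2 : ℝ)‖ ^ 2 = 1 / 4 := by norm_num
          rw [h5]
          nlinarith
        set w := ‖(1 / 2 : ℝ) • (x + y)‖ with hw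
        set z := ‖(1 / 2 : ℝ) • (x - y)‖ with hz'
        have h6 := hb x (hMA x hx)
        have h7 := hb y (hMA y hy)
        have h8 : 0 ≤ 1 + t * (-‖x‖ ^ 2 + ε * d x) := by
          have h2 : 0 ≤ t * (ε * d x) := mul_nonneg ht0.le (mul_nonneg hε.le (hd0 x))
          nlinarith
        have h9 : 0 ≤ 1 + t * (-‖y‖ ^ 2) := by nlinarith
        have h10 : ((1 + t * (-‖x‖ ^ 2 + ε * d x)) + (1 + t * (-‖y‖ ^ 2))) / 2 ≤
            1 + t * (-z ^ 2 + ε ^ 2 / 16) := by
          have h11 : (-‖x‖ ^ 2 + ε * d x + -‖y‖ ^ 2) / 2 ≤ -z ^ 2 + ε ^ 2 / 16 := by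
            have h12 : ε * d x ≤ ε * w := mul_le_mul_of_nonneg_left h1 hε.le
            nlinarith [sq_nonneg (w - ε / 4)]
          have h13 := mul_le_mul_of_nonneg_left h11 ht0.le
          linarith
        have h14 := pow_le_pow_left₀ (by positivity) h10 2
        refine le_trans ?_ h14
        nlinarith [sq_nonneg ((1 + t * (-‖x‖ ^ 2 + ε * d x)) - (1 + t * (-‖y‖ ^ 2)))])
    have hcn : Continuous (fun x : E n => ‖x‖ ^ 2) := by fun_prop
    have i1 : ∫ x in A, (1 + t * (-‖x‖ ^ 2 + ε * d x)) = V + t * (-m + ε * D) := by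
      have e1 : ∫ x in A, (1 + t * (-‖x‖ ^ 2 + ε * d x)) =
          ∫ x in A, ((1 : ℝ) + ((-t) * ‖x‖ ^ 2 + (t * ε) * d x)) := by
        congr 1
        ext x
        ring
      have e2 : ∫ x in A, ((1 : ℝ) + ((-t) * ‖x‖ ^ 2 + (t * ε) * d x)) =
          (∫ _ in A, (1 : ℝ)) + ∫ x in A, ((-t) * ‖x‖ ^ 2 + (t * ε) * d x) :=
        integral_add (hint _ _ hA.cpt (by fun_prop)) (hint _ _ hA.cpt (by fun_prop))
      have e3 : ∫ x in A, ((-t) * ‖x‖ ^ 2 + (t * ε) * d x) =
          (∫ x in A, (-t) * ‖x‖ ^ 2) + ∫ x in A, (t * ε) * d x :=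
        integral_add (hint _ _ hA.cpt (by fun_prop)) (hint _ _ hA.cpt (by fun_prop))
      rw [e1, e2, e3, integral_const_mul, integral_const_mul, setIntegral_const, smul_eq_mul]
      ring
    have i2 : ∫ x in A, (1 + t * (-‖x‖ ^ 2)) = V + t * (-m) := by
      have e1 : ∫ x in A, (1 + t * (-‖x‖ ^ 2)) = ∫ x in A, ((1 : ℝ) + (-t) * ‖x‖ ^ 2) := by
        congr 1
        ext x
        ring
      have e2 : ∫ x in A, ((1 : ℝ) + (-t) * ‖x‖ ^ 2) =
          (∫ _ in A, (1 : ℝ)) + ∫ x in A, (-t) * ‖x‖ ^ 2 :=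
        integral_add (hint _ _ hA.cpt (by fun_prop)) (hint _ _ hA.cpt (by fun_prop))
      rw [e1, e2, integral_const_mul, setIntegral_const, smul_eq_mul]
      ring
    have i3 : ∫ x in C, (1 + t * (-‖x‖ ^ 2 + ε ^ 2 / 16)) = V + t * (-mC + V * ε ^ 2 / 16) := by
      have e1 : ∫ x in C, (1 + t * (-‖x‖ ^ 2 + ε ^ 2 / 16)) =
          ∫ x in C, ((1 + t * (ε ^ 2 / 16)) + (-t) * ‖x‖ ^ 2) := by
        congr 1
        ext x
        ring
      have e2 : ∫ x in C, ((1 + t * (ε ^ 2 / 16)) + (-t) * ‖x‖ ^ 2) =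
          (∫ _ in C, (1 + t * (ε ^ 2 / 16))) + ∫ x in C, (-t) * ‖x‖ ^ 2 :=
        integral_add (hint _ _ hC.cpt (by fun_prop)) (hint _ _ hC.cpt (by fun_prop))
      rw [e1, e2, integral_const_mul, setIntegral_const, smul_eq_mul, hv]
      ring
    rw [i1, i2, i3] at hpl
    have h20 : t * (V * (-(2 * m) + ε * D)) ≤ t * (V * (-(2 * mC) + V * ε ^ 2 / 8) +
        t * ((-mC + V * ε ^ 2 / 16) ^ 2 - (-m + ε * D) * (-m))) := by
      linarith
    exact le_of_mul_le_mul_left h20 ht0
  have hD0 : D ≤ 0 := by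
    refine lim_le (t0 := 1) (k := V / 8) one_pos ?_
    intro ε hε _
    have h1 := le_of_mul_le_mul_left (key ε hε) hV0
    have h2 : ε * D ≤ ε * (0 + ε * (V / 8)) := by nlinarith
    exact le_of_mul_le_mul_left h2 hε
  have hne : C.Nonempty := ⟨0, Pool.Agent.PNR.zero_mem hC⟩
  intro x hx
  by_contra hxC
  have hx0 : 0 < d x := (hC.cpt.isClosed.notMem_iff_infDist_pos hne).1 hxC
  have hU : IsOpen {y | 0 < d y} := isOpen_lt continuous_const hdc
  have hxc : x ∈ closure (interior A) := by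
    rw [hA.cvx.closure_interior_eq_closure_of_nonempty_interior hA.int]
    exact subset_closure hx
  obtain ⟨q, hq1, hq2⟩ := mem_closure_iff.1 hxc _ hU hx0
  have hO : IsOpen ({y | 0 < d y} ∩ interior A) := hU.inter isOpen_interior
  have hpos : 0 < D := by
    rw [hD, setIntegral_pos_iff_support_of_nonneg_ae (ae_of_all _ hd0)
      (hint _ _ hA.cpt hdc)]
    refine lt_of_lt_of_le (hO.measure_pos volume ⟨q, hq1, hq2⟩) (measure_mono ?_)
    exact fun y hy => ⟨(show 0 < d y from hy.1).ne', interior_subset hy.2⟩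
  linarith

/-- A closed subset of full volume of a convex body is everything. -/
lemma eq_of_vol {A C : Set (E n)} (hA : IsCompact A) (hC : SymBody C) (h : A ⊆ C)
    (hv : volume.real C ≤ volume.real A) : C ⊆ A := by
  intro x hx
  by_contra hxA
  have hU : IsOpen Aᶜ := hA.isClosed.isOpen_compl
  have hxc : x ∈ closure (interior C) := by
    rw [hC.cvx.closure_interior_eq_closure_of_nonempty_interior hC.int]
    exact subset_closure hx
  obtain ⟨q, hq1, hq2⟩ := mem_closure_iff.1 hxc _ hU hxA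
  have hO : IsOpen (Aᶜ ∩ interior C) := hU.inter isOpen_interior
  have hfin : volume (Aᶜ ∩ interior C) ≠ ⊤ :=
    (lt_of_le_of_lt (measure_mono (inter_subset_right.trans interior_subset))
      hC.cpt.measure_lt_top).ne
  have hOpos : 0 < volume.real (Aᶜ ∩ interior C) := by
    rw [measureReal_def]
    exact ENNReal.toReal_pos (hO.measure_pos volume ⟨q, hq1, hq2⟩).ne' hfin
  have hdis : Disjoint A (Aᶜ ∩ interior C) := by
    rw [Set.disjoint_left]
    exact fun z hz hz2 => hz2.1 hz
  have hun : A ∪ (Aᶜ ∩ interior C) ⊆ C :=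
    Set.union_subset h (inter_subset_right.trans interior_subset)
  have h6 := measureReal_mono hun hC.cpt.measure_lt_top.ne (μ := volume)
  rw [measureReal_union hdis hO.measurableSet hA.measure_lt_top.ne hfin] at h6
  linarith

/-- The convex bodies whose difference body is as small as possible are symmetric. -/
theorem sym_of_vol (hn : 1 ≤ n) {A : Set (E n)} (hA : Body A)
    (hv : volume.real (KK A) ≤ volume.real A) : ∃ g : E n, ∀ x, x ∈ A ↔ x - g ∈ KK A := by
  have hC : SymBody (KK A) := Pool.Agent.PNR.KK_sym hA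
  have hle : volume.real A ≤ volume.real (KK A) := by
    have h2 := Pool.Agent.PNR.isodiam hn hC hA.cpt hA.cvx hA.nonempty (zero_le_one (α := ℝ))
      (fun x hx y hy => by
        rw [mul_one]
        exact Pool.Agent.PNR.sub_mem A hx hy)
    simpa using h2
  have hV0 : 0 < volume.real A := by
    rw [measureReal_def]
    refine ENNReal.toReal_pos ?_ hA.cpt.measure_lt_top.ne
    obtain ⟨o, ho⟩ := hA.int
    exact (lt_of_lt_of_le (isOpen_interior.measure_pos volume ⟨o, ho⟩)
      (measure_mono interior_subset)).ne'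
  -- the centroid
  set g : E n := WithLp.toLp 2 (fun i => (∫ x in A, x i) / volume.real A) with hg
  set B : Set (E n) := (fun x => x + g) ⁻¹' A with hB
  have hBA : B = (fun x => x - g) '' A := by
    ext x
    constructor
    · intro hx
      exact ⟨x + g, hx, by simp⟩
    · rintro ⟨y, hy, rfl⟩
      change y - g + g ∈ A
      rwa [sub_add_cancel]
  have hBb : Body B := by
    refine ⟨?_, ?_, ?_⟩
    · rw [hBA]
      exact hA.cpt.image (by fun_prop)
    · exact hA.cvx.affine_preimage (AffineMap.id ℝ (E n) + AffineMap.const ℝ (E n) g)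
    · obtain ⟨o, ho⟩ := hA.int
      have h1 : IsOpen ((fun x => x + g) ⁻¹' interior A) := isOpen_interior.preimage (by fun_prop)
      refine ⟨o - g, interior_maximal (Set.preimage_mono interior_subset) h1 ?_⟩
      change o - g + g ∈ interior A
      rwa [sub_add_cancel]
  have hKB : KK B = KK A := by
    ext z
    constructor
    · rintro ⟨x, hx, y, hy, rfl⟩
      refine ⟨x + g, hx, y + g, hy, ?_⟩
      rw [add_sub_add_right_eq_sub]
    · rintro ⟨x, hx, y, hy, rfl⟩
      refine ⟨x - g, ?_, y - g, ?_, ?_⟩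
      · change x - g + g ∈ A
        rwa [sub_add_cancel]
      · change y - g + g ∈ A
        rwa [sub_add_cancel]
      · rw [sub_sub_sub_cancel_right]
  have hmp : MeasurePreserving (fun x : E n => x + g) volume volume :=
    measurePreserving_add_right volume g
  have hvB : volume.real B = volume.real A := by
    rw [measureReal_def, measureReal_def, hB,
      hmp.measure_preimage hA.cpt.measurableSet.nullMeasurableSet]
  have hvB' : volume.real (KK B) = volume.real B := by
    rw [hKB, hvB]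
    exact le_antisymm hv hle
  have hcB : ∀ i, ∫ x in B, x i = 0 := by
    intro i
    have h1 : ∫ x in B, ((x + g) i - g i) = ∫ x in A, (x i - g i) :=
      hmp.setIntegral_preimage_emb (MeasurableEquiv.addRight g).measurableEmbedding
        (fun x => x i - g i) A
    have h2 : ∫ x in B, ((x + g) i - g i) = ∫ x in B, x i := by
      congr 1
      ext x
      simp
    have h3 : ∫ x in A, (x i - g i) = (∫ x in A, x i) - ∫ _ in A, g i := by
      refine integral_sub ?_ ?_
      · exact (by fun_prop : Continuous fun x : E n => x i).continuousOn.integrableOn_compact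
          hA.cpt
      · exact (continuous_const (y := g i)).continuousOn.integrableOn_compact hA.cpt
    rw [← h2, h1, h3, setIntegral_const, smul_eq_mul]
    have h4 : g i = (∫ x in A, x i) / volume.real A := rfl
    rw [h4]
    field_simp
    ring
  have h1 := sub_KK hBb hvB' hcB
  have h2 := eq_of_vol hBb.cpt (Pool.Agent.PNR.KK_sym hBb) h1 hvB'.le
  have h3 : KK A = B := by
    rw [← hKB]
    exact Set.Subset.antisymm h2 h1
  refine ⟨g, fun x => ?_⟩
  rw [h3]
  change x ∈ A ↔ x - g + g ∈ A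
  rw [sub_add_cancel]

/-- The strict inequality if `F` is not a translate of `K`. -/
theorem vol_add_lt' {F K : Set (E n)} (hn : 1 ≤ n) (hF : IsCompact F) (hFc : Convex ℝ F)
    (hFn : F.Nonempty) (hK : SymBody K)
    (h : ∀ x ∈ F, ∀ y ∈ F, ∃ k ∈ K, x - y = (2 : ℝ) • k)
    (hne : ∀ g : E n, ∃ x, ¬ (x ∈ F ↔ x - g ∈ K)) :
    volume.real (F + K) < 2 ^ n * volume.real K := by
  by_contra hcon
  push Not at hcon
  have h0 : (0 : E n) ∈ K := Pool.Agent.PNR.zero_mem hK
  have hA : Body (F + K) := by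
    refine ⟨hF.add hK.cpt, hFc.add hK.cvx, ?_⟩
    obtain ⟨x, hx⟩ := hFn
    obtain ⟨k, hk⟩ := hK.int
    have h1 : IsOpen (F + interior K) := isOpen_interior.add_left
    exact ⟨x + k, interior_maximal (Set.add_subset_add_left interior_subset) h1
      (Set.add_mem_add hx hk)⟩
  have hC : SymBody (KK (F + K)) := Pool.Agent.PNR.KK_sym hA
  rw [← Pool.Agent.HRP.BAD_.vol_smul K 2 (by norm_num)] at hcon
  have h2K : SymBody ((2 : ℝ) • K) := by
    refine ⟨hK.cpt.smul 2, hK.cvx.smul 2, ?_, ?_⟩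
    · rw [interior_smul₀ (by norm_num : (2 : ℝ) ≠ 0)]
      exact hK.int.smul_set
    · rintro _ ⟨k, hk, rfl⟩
      exact ⟨-k, hK.symm k hk, by simp⟩
  have hsub : KK (F + K) ⊆ (2 : ℝ) • K := by
    rintro _ ⟨_, ⟨x, hx, k, hk, rfl⟩, _, ⟨y, hy, l, hl, rfl⟩, rfl⟩
    have e : (1 / 2 : ℝ) • (x + k - (y + l)) =
        (1 / 2 : ℝ) • (x - y) + (1 / 2 : ℝ) • (k - l) := by module
    have hm : (1 / 2 : ℝ) • (k - l) ∈ K := half_sub_mem hK hk hl
    obtain ⟨m, hm2, hxy⟩ := h x hx y hy
    have hb2 : (1 / 2 : ℝ) • (x - y) ∈ K := by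
      rw [hxy, smul_smul]
      norm_num
      exact hm2
    rw [e]
    have h3 := Pool.Agent.PNR.add_mem_smul hK zero_le_one zero_le_one
      (show _ ∈ (1 : ℝ) • K by rw [one_smul]; exact hb2)
      (show _ ∈ (1 : ℝ) • K by rw [one_smul]; exact hm)
    rw [show (1 : ℝ) + 1 = 2 by norm_num] at h3
    exact h3
  have hle : volume.real (KK (F + K)) ≤ volume.real ((2 : ℝ) • K) :=
    measureReal_mono hsub h2K.cpt.measure_lt_top.ne
  obtain ⟨g, hg⟩ := sym_of_vol hn hA (hle.trans hcon)
  have hle2 : volume.real (F + K) ≤ volume.real (KK (F + K)) := by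
    have h2 := Pool.Agent.PNR.isodiam hn hC hA.cpt hA.cvx hA.nonempty (zero_le_one (α := ℝ))
      (fun x hx y hy => by
        rw [mul_one]
        exact Pool.Agent.PNR.sub_mem (F + K) hx hy)
    simpa using h2
  have h2 := eq_of_vol hC.cpt h2K hsub (hcon.trans hle2)
  have heq : KK (F + K) = (2 : ℝ) • K := Set.Subset.antisymm hsub h2
  rw [heq] at hg
  obtain ⟨x, hx⟩ := hne g
  apply hx
  constructor
  · intro hxF
    by_contra hxK
    obtain ⟨f, u, hfu, hu⟩ := geometric_hahn_banach_closed_point hK.cvx hK.cpt.isClosed hxK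
    obtain ⟨k1, hk1, hmax⟩ := hK.cpt.exists_isMaxOn ⟨0, h0⟩ f.continuous.continuousOn
    obtain ⟨k', hk', hkk⟩ := (hg (x + k1)).1 (Set.add_mem_add hxF hk1)
    have e1 : (2 : ℝ) • k' = x + k1 - g := hkk
    have e2 : f (x - g) + f k1 = 2 * f k' := by
      rw [← smul_eq_mul, ← map_smul, e1, ← map_add]
      congr 1
      abel
    have e3 : f k' ≤ f k1 := hmax hk'
    have e4 := hfu k' hk'
    linarith
  · intro hxK
    by_contra hxF
    obtain ⟨f, u, hfu, hu⟩ := geometric_hahn_banach_closed_point hFc hF.isClosed hxF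
    obtain ⟨k1, hk1, hmax⟩ := hK.cpt.exists_isMaxOn ⟨0, h0⟩ f.continuous.continuousOn
    have h5 : x - g + k1 ∈ (2 : ℝ) • K := by
      have h3 := Pool.Agent.PNR.add_mem_smul hK zero_le_one zero_le_one
        (show _ ∈ (1 : ℝ) • K by rw [one_smul]; exact hxK)
        (show _ ∈ (1 : ℝ) • K by rw [one_smul]; exact hk1)
      rw [show (1 : ℝ) + 1 = 2 by norm_num] at h3
      exact h3
    have h6 : x + k1 ∈ F + K := (hg (x + k1)).2 (by
      have e : x + k1 - g = x - g + k1 := by abel
      rw [e]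
      exact h5)
    obtain ⟨y, hy, k', hk', hyk⟩ := h6
    have e2 : f y + f k' = f x + f k1 := by
      rw [← map_add, ← map_add]
      congr 1
    have e3 : f k' ≤ f k1 := hmax hk'
    have e4 := hfu y hy
    linarith

end Pool.Agent.TN
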