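import Mathlib

/-!
# Tiles around a point with three nearest lattice points
-/

set_option autoImplicit false

namespace Pool.Agent.TN

variable {E : Type*} [NormedAddCommGroup E] [InnerProductSpace ℝ E]

/-- The Voronoi cell. -/
def Vor (L : Submodule ℤ E) : Set E := {x | ∀ l ∈ L, ‖x‖ ≤ ‖x - l‖}

variable {L : Submodule ℤ E}

lemma le_iff (x l : E) : ‖x‖ ≤ ‖x - l‖ ↔ 2 * inner ℝ x l ≤ ‖l‖ ^ 2 := by
  have h := norm_sub_sq_real x l
  constructor
  · intro h1
    have := pow_le_pow_left₀ (norm_nonneg x) h1 2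
    linarith
  · intro h1
    refine le_of_sq_le_sq ?_ (norm_nonneg _)
    linarith

lemma mem_vor {x : E} : x ∈ Vor L ↔ ∀ l ∈ L, 2 * inner ℝ x l ≤ ‖l‖ ^ 2 := by
  constructor
  · exact fun h l hl => (le_iff x l).1 (h l hl)
  · exact fun h l hl => (le_iff x l).2 (h l hl)

lemma vor_neg {x : E} (hx : x ∈ Vor L) : -x ∈ Vor L := by
  rw [mem_vor] at hx ⊢
  intro l hl
  have := hx (-l) (L.neg_mem hl)
  rw [inner_neg_right, norm_neg] at this
  rw [inner_neg_left]
  exact this

lemma vor_convex : Convex ℝ (Vor L) := by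
  intro x hx y hy s t hs ht hst
  rw [mem_vor] at hx hy ⊢
  intro l hl
  have h1 := hx l hl
  have h2 := hy l hl
  rw [inner_add_left, real_inner_smul_left, real_inner_smul_left]
  have h3 : t = 1 - s := by linarith
  subst h3
  nlinarith

lemma vor_half {x y : E} (hx : x ∈ Vor L) (hy : y ∈ Vor L) : (1 / 2 : ℝ) • (x - y) ∈ Vor L := by
  have h := vor_convex hx (vor_neg hy) (by norm_num : (0 : ℝ) ≤ 1 / 2)
    (by norm_num : (0 : ℝ) ≤ 1 / 2) (by norm_num)
  have e : (1 / 2 : ℝ) • (x - y) = (1 / 2 : ℝ) • x + (1 / 2 : ℝ) • -y := by module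
  rw [e]
  exact h

/-- shift to a neighbour -/
lemma vor_shift {x m : E} (hx : x ∈ Vor L) (hm : m ∈ L) (h : 2 * inner ℝ x m = ‖m‖ ^ 2) :
    x - m ∈ Vor L := by
  rw [mem_vor] at hx ⊢
  intro l hl
  have h1 := hx (m + l) (L.add_mem hm hl)
  rw [inner_add_right, norm_add_sq_real] at h1
  rw [inner_sub_left]
  linarith

lemma vor_pair {x m k : E} (hx : x ∈ Vor L) (hm : m ∈ L) (hk : k ∈ L)
    (h : 2 * inner ℝ x m = ‖m‖ ^ 2) (h' : 2 * inner ℝ x k = ‖k‖ ^ 2) : 0 ≤ inner ℝ m k := by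
  rw [mem_vor] at hx
  have h1 := hx (m + k) (L.add_mem hm hk)
  rw [inner_add_right, norm_add_sq_real] at h1
  linarith

/-- The six vectors. -/
def Belt (a b m : E) : Prop :=
  m = a ∨ m = b ∨ m = b - a ∨ m = -a ∨ m = -b ∨ m = a - b

/-- The area form. -/
noncomputable def om (a b m w : E) : ℝ :=
  inner ℝ m a * inner ℝ w b - inner ℝ m b * inner ℝ w a

/-- The removed facets. -/
def Del (a b w m : E) : Prop :=
  Belt a b m ∧ inner ℝ m w = 0 ∧ (0 < om a b m w ∨ (om a b m w = 0 ∧ 0 < inner ℝ m b))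

/-- A point with exactly three nearest lattice points. -/
structure Tri (L : Submodule ℤ E) (a b y : E) : Prop where
  ha : a ∈ L
  hb : b ∈ L
  g0 : 0 < inner ℝ a b
  gA : inner ℝ a b < ‖a‖ ^ 2
  gB : inner ℝ a b < ‖b‖ ^ 2
  hy : y ∈ Vor L
  hya : 2 * inner ℝ y a = ‖a‖ ^ 2
  hyb : 2 * inner ℝ y b = ‖b‖ ^ 2
  hyJ : ∀ l ∈ L, 2 * inner ℝ y l = ‖l‖ ^ 2 → l = 0 ∨ l = a ∨ l = b
  gen : ∀ m ∈ L, m ≠ 0 → (1 / 2 : ℝ) • m ∈ Vor L → ¬ Belt a b m →
    ∀ l ∈ L, 2 * inner ℝ m y ≠ inner ℝ m l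

section belt

variable {a b : E}

lemma belt_ne (g0 : 0 < inner ℝ a b) (gA : inner ℝ a b < ‖a‖ ^ 2) (gB : inner ℝ a b < ‖b‖ ^ 2)
    {k m : E} (hk : Belt a b k) (hm : Belt a b m) : inner ℝ k m ≠ 0 := by
  have e1 : inner ℝ b a = inner ℝ a b := real_inner_comm _ _
  have e2 : inner ℝ a a = ‖a‖ ^ 2 := real_inner_self_eq_norm_sq a
  have e3 : inner ℝ b b = ‖b‖ ^ 2 := real_inner_self_eq_norm_sq b
  rcases hk with hk | hk | hk | hk | hk | hk <;>
  rcases hm with hm | hm | hm | hm | hm | hm <;>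
  rw [hk, hm] <;>
  (try simp only [inner_sub_left, inner_sub_right, inner_neg_left, inner_neg_right, e1, e2,
    e3]) <;>
  intro h <;> linarith

lemma belt_lt (g0 : 0 < inner ℝ a b) (gA : inner ℝ a b < ‖a‖ ^ 2) (gB : inner ℝ a b < ‖b‖ ^ 2)
    {k m : E} (hk : Belt a b k) (hm : Belt a b m) (hne : k ≠ m) : inner ℝ k m < ‖k‖ ^ 2 := by
  have e1 : inner ℝ b a = inner ℝ a b := real_inner_comm _ _
  have e2 : inner ℝ a a = ‖a‖ ^ 2 := real_inner_self_eq_norm_sq a
  have e3 : inner ℝ b b = ‖b‖ ^ 2 := real_inner_self_eq_norm_sq b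
  rw [← real_inner_self_eq_norm_sq k]
  rcases hk with hk | hk | hk | hk | hk | hk <;>
  rcases hm with hm | hm | hm | hm | hm | hm <;>
  (first | exact absurd (hk.trans hm.symm) hne | skip) <;>
  rw [hk, hm] <;>
  (try simp only [inner_sub_left, inner_sub_right, inner_neg_left, inner_neg_right, e1, e2,
    e3]) <;>
  linarith

omit [InnerProductSpace ℝ E] in
lemma belt_neg {m : E} (hm : Belt a b m) : Belt a b (-m) := by
  unfold Belt at hm ⊢
  rcases hm with hm | hm | hm | hm | hm | hm <;> subst hm <;> simp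

/-- Two non-proportional vectors of the belt determine the projection. -/
lemma belt_zero {k m v : E} (hk : Belt a b k) (hm : Belt a b m) (h1 : k ≠ m) (h2 : k ≠ -m)
    (hkv : inner ℝ k v = 0) (hmv : inner ℝ m v = 0) :
    inner ℝ a v = 0 ∧ inner ℝ b v = 0 := by
  rcases hk with hk | hk | hk | hk | hk | hk <;>
  rcases hm with hm | hm | hm | hm | hm | hm <;>
  (first | exact absurd (hk.trans hm.symm) h1 | skip) <;>
  (first
    | (exfalso; apply h2; rw [hk, hm]; abel1)
    | (exfalso; apply h2; rw [hk, hm]; done)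
    | skip) <;>
  rw [hk] at hkv <;> rw [hm] at hmv <;>
  (try simp only [inner_sub_left, inner_neg_left] at hkv hmv) <;>
  constructor <;> linarith

lemma belt_inner_zero {m v : E} (hm : Belt a b m) (ha : inner ℝ a v = 0) (hb : inner ℝ b v = 0) :
    inner ℝ m v = 0 := by
  rcases hm with hm | hm | hm | hm | hm | hm <;> rw [hm] <;>
  simp [inner_sub_left, inner_neg_left, ha, hb]

lemma belt_om (g0 : 0 < inner ℝ a b) (gA : inner ℝ a b < ‖a‖ ^ 2) (gB : inner ℝ a b < ‖b‖ ^ 2)
    {k m w : E} (hk : Belt a b k) (hm : Belt a b m) (hne : k ≠ m) (hpos : 0 < inner ℝ k m)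
    (hkw : inner ℝ w k = ‖k‖ ^ 2) (hmw : inner ℝ w m = ‖m‖ ^ 2) :
    om a b k w < 0 ∨ om a b m w < 0 := by
  have e1 : inner ℝ b a = inner ℝ a b := real_inner_comm _ _
  have e2 : inner ℝ a a = ‖a‖ ^ 2 := real_inner_self_eq_norm_sq a
  have e3 : inner ℝ b b = ‖b‖ ^ 2 := real_inner_self_eq_norm_sq b
  rw [← real_inner_self_eq_norm_sq k] at hkw
  rw [← real_inner_self_eq_norm_sq m] at hmw
  unfold om
  have hA : 0 < ‖a‖ ^ 2 := g0.trans gA
  have hB : 0 < ‖b‖ ^ 2 := g0.trans gB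
  generalize hg : inner ℝ a b = g at *
  generalize hAe : ‖a‖ ^ 2 = A at *
  generalize hBe : ‖b‖ ^ 2 = B at *
  generalize hwa : inner ℝ w a = α at *
  generalize hwb : inner ℝ w b = β at *
  have q1 : 0 < A * (B - g) := mul_pos hA (by linarith)
  have q2 : 0 < B * (A - g) := mul_pos hB (by linarith)
  have q3 : 0 < g * (A + B - 2 * g) := mul_pos g0 (by linarith)
  have p1 := congrArg (fun t => A * t) hkw
  have p2 := congrArg (fun t => B * t) hkw
  have p3 := congrArg (fun t => g * t) hkw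
  have p4 := congrArg (fun t => A * t) hmw
  have p5 := congrArg (fun t => B * t) hmw
  have p6 := congrArg (fun t => g * t) hmw
  rcases hk with hk | hk | hk | hk | hk | hk <;>
  rcases hm with hm | hm | hm | hm | hm | hm <;>
  (first | exact absurd (hk.trans hm.symm) hne | skip) <;>
  subst hk hm <;>
  simp only [inner_sub_left, inner_sub_right, inner_neg_left, inner_neg_right, e1, e2,
    e3, hg, hwa, hwb] at hkw hmw hpos p1 p2 p3 p4 p5 p6 ⊢ <;>
  first
  | (exfalso; linarith)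
  | (left; linarith)
  | (right; linarith)

end belt

section core

variable {a b y : E}

/-- `l - 2 y` -/
def IsTile (L : Submodule ℤ E) (y w : E) : Prop := ∃ l ∈ L, w = l - (2 : ℝ) • y

lemma IsTile.add {w m : E} (hw : IsTile L y w) (hm : m ∈ L) : IsTile L y (w + m) := by
  obtain ⟨l, hl, rfl⟩ := hw
  exact ⟨l + m, L.add_mem hl hm, by abel⟩

lemma IsTile.sub {w m : E} (hw : IsTile L y w) (hm : m ∈ L) : IsTile L y (w - m) := by
  rw [sub_eq_add_neg]
  exact hw.add (L.neg_mem hm)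

/-- `m` with `m / 2` in the cell -/
def Rel (L : Submodule ℤ E) (m : E) : Prop := m ∈ L ∧ m ≠ 0 ∧ (1 / 2 : ℝ) • m ∈ Vor L

lemma belt_mem (T : Tri L a b y) {m : E} (hm : Belt a b m) : m ∈ L := by
  rcases hm with hm | hm | hm | hm | hm | hm <;> rw [hm]
  · exact T.ha
  · exact T.hb
  · exact L.sub_mem T.hb T.ha
  · exact L.neg_mem T.ha
  · exact L.neg_mem T.hb
  · exact L.sub_mem T.ha T.hb

/-- genericity, first form -/
lemma gen_zero (T : Tri L a b y) {w m : E} (hw : IsTile L y w) (hm : Rel L m)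
    (h : inner ℝ m w = 0) : Belt a b m := by
  by_contra hb
  obtain ⟨l, hl, rfl⟩ := hw
  refine T.gen m hm.1 hm.2.1 hm.2.2 hb l hl ?_
  rw [inner_sub_right, inner_smul_right] at h
  linarith

/-- genericity, second form -/
lemma gen_two (T : Tri L a b y) {w m : E} (hw : IsTile L y w) (hm : Rel L m)
    (h : inner ℝ w m = ‖m‖ ^ 2) : Belt a b m := by
  by_contra hb
  obtain ⟨l, hl, rfl⟩ := hw
  refine T.gen m hm.1 hm.2.1 hm.2.2 hb (l - m) (L.sub_mem hl hm.1) ?_
  rw [inner_sub_left, real_inner_smul_left] at h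
  rw [inner_sub_right, real_inner_self_eq_norm_sq, real_inner_comm l m]
  rw [real_inner_comm m y] at *
  linarith

/-- If `x` is on the facet `m`, then `m` is relevant. -/
lemma rel_of_face {x m : E} (hx : x ∈ Vor L) (hm : m ∈ L) (h0 : m ≠ 0)
    (h : 2 * inner ℝ x m = ‖m‖ ^ 2) : Rel L m := by
  refine ⟨hm, h0, ?_⟩
  have h1 := vor_half hx (vor_shift hx hm h)
  have e : (1 / 2 : ℝ) • (x - (x - m)) = (1 / 2 : ℝ) • m := by
    congr 1
    abel
  rwa [e] at h1

/-- `z` is in the tile `w`. -/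
def InTile (L : Submodule ℤ E) (z w : E) : Prop := z - w ∈ Vor L

/-- `z` is on no removed facet of the tile `w`. -/
def Safe (a b z w : E) : Prop := ∀ m, Del a b w m → 2 * inner ℝ z m ≠ ‖m‖ ^ 2

/-- Step 1. -/
lemma step1 (T : Tri L a b y) {z w m : E} (hz : z ∈ Vor L) (hzw : InTile L z w)
    (hm : Del a b w m) (hzm : 2 * inner ℝ z m = ‖m‖ ^ 2) :
    InTile L z (w + m) ∧ Safe a b z (w + m) := by
  have hmL := belt_mem T hm.1
  have h1 : 2 * inner ℝ (z - w) m = ‖m‖ ^ 2 := by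
    rw [inner_sub_left, real_inner_comm m w, hm.2.1]
    linarith
  have h2 : z - w - m ∈ Vor L := vor_shift hzw hmL h1
  have h3 : InTile L z (w + m) := by
    unfold InTile
    have e : z - (w + m) = z - w - m := by abel
    rw [e]
    exact h2
  refine ⟨h3, ?_⟩
  intro k hk hzk
  have hkL := belt_mem T hk.1
  have h4 := vor_pair hz hmL hkL hzm hzk
  have h5 : 2 * inner ℝ (z - w - m) k = ‖k‖ ^ 2 := by
    have := hk.2.1
    rw [inner_add_right, real_inner_comm w k, real_inner_comm m k] at this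
    rw [inner_sub_left, inner_sub_left]
    linarith
  have h6 : 2 * inner ℝ (z - w - m) (-m) = ‖-m‖ ^ 2 := by
    have := hm.2.1
    rw [real_inner_comm] at this
    rw [inner_neg_right, norm_neg, inner_sub_left, inner_sub_left, this,
      real_inner_self_eq_norm_sq]
    linarith
  have h7 := vor_pair h2 (L.neg_mem hmL) hkL h6 h5
  rw [inner_neg_left] at h7
  exact belt_ne T.g0 T.gA T.gB hm.1 hk.1 (by linarith)

/-- The contacts of the tile `w`. -/
def Con (L : Submodule ℤ E) (w m : E) : Prop := m ∈ L ∧ m ≠ 0 ∧ inner ℝ w m = ‖m‖ ^ 2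

lemma con_half {w m : E} (h : Con L w m) : 2 * inner ℝ ((1 / 2 : ℝ) • w) m = ‖m‖ ^ 2 := by
  rw [real_inner_smul_left, ← h.2.2]
  ring

lemma con_belt (T : Tri L a b y) {w m : E} (hw : IsTile L y w) (hwV : (1 / 2 : ℝ) • w ∈ Vor L)
    (h : Con L w m) : Belt a b m :=
  gen_two T hw (rel_of_face hwV h.1 h.2.1 (con_half h)) h.2.2

lemma con_shift {w m : E} (hwV : (1 / 2 : ℝ) • w ∈ Vor L) (h : Con L w m) :
    (1 / 2 : ℝ) • w - m ∈ Vor L := vor_shift hwV h.1 (con_half h)

/-- The tile between two opposite contacts. -/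
lemma mid_mem {w m : E} (hwV : (1 / 2 : ℝ) • w ∈ Vor L) (h : Con L w m) :
    (1 / 2 : ℝ) • (w - m) ∈ Vor L := by
  have h1 := vor_half hwV (vor_neg (con_shift hwV h))
  have e : (1 / 2 : ℝ) • ((1 / 2 : ℝ) • w - -((1 / 2 : ℝ) • w - m)) =
      (1 / 2 : ℝ) • (w - m) := by module
  rwa [e] at h1

lemma mid_con (T : Tri L a b y) {w m k : E} (hw : IsTile L y w)
    (hwV : (1 / 2 : ℝ) • w ∈ Vor L) (h : Con L w m) : ¬ Con L (w - m) k := by
  intro hk
  have hmB := con_belt T hw hwV h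
  have hkB := con_belt T (hw.sub h.1) (mid_mem hwV h) hk
  have h1 := mem_vor.1 hwV k hk.1
  have h2 := mem_vor.1 (con_shift hwV h) k hk.1
  have h3 := hk.2.2
  rw [inner_sub_left] at h3
  rw [real_inner_smul_left] at h1
  rw [inner_sub_left, real_inner_smul_left] at h2
  exact belt_ne T.g0 T.gA T.gB hmB hkB (by linarith)

/-- A point of the cell in the tile `w` is on the facets of contact. -/
lemma con_point {z w m : E} (hz : z ∈ Vor L) (hzw : InTile L z w) (h : Con L w m) :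
    2 * inner ℝ z m = ‖m‖ ^ 2 ∧ InTile L z (w - m) := by
  have h1 := mem_vor.1 hz m h.1
  have h2 := mem_vor.1 hzw (-m) (L.neg_mem h.1)
  have h3 := h.2.2
  rw [inner_neg_right, norm_neg, inner_sub_left] at h2
  have h4 : 2 * inner ℝ z m = ‖m‖ ^ 2 := by linarith
  refine ⟨h4, ?_⟩
  have h5 := vor_shift hzw (L.neg_mem h.1) (by
    rw [inner_neg_right, norm_neg, inner_sub_left]
    linarith)
  unfold InTile
  have e : z - (w - m) = z - w - -m := by abel
  rw [e]
  exact h5

/-- The tiles used. -/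
def Kept (L : Submodule ℤ E) (a b y w : E) : Prop :=
  IsTile L y w ∧ (1 / 2 : ℝ) • w ∈ Vor L ∧
    ((∀ m, ¬ Con L w m) ∨ ∃ m, Con L w m ∧ (∀ k, Con L w k → k = m) ∧ Del a b (w - m) m)

lemma half_of_inTile {z w : E} (hz : z ∈ Vor L) (hzw : InTile L z w) :
    (1 / 2 : ℝ) • w ∈ Vor L := by
  have h1 := vor_half hz hzw
  have e : (1 / 2 : ℝ) • (z - (z - w)) = (1 / 2 : ℝ) • w := by
    congr 1
    abel
  rwa [e] at h1

lemma ne_neg_of_face (T : Tri L a b y) {z m k : E} (hm : Belt a b m)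
    (hzm : 2 * inner ℝ z m = ‖m‖ ^ 2) (hzk : 2 * inner ℝ z k = ‖k‖ ^ 2) : k ≠ -m := by
  rintro rfl
  rw [inner_neg_right, norm_neg] at hzk
  have h1 := belt_ne T.g0 T.gA T.gB hm hm
  rw [real_inner_self_eq_norm_sq] at h1
  exact h1 (by linarith)

/-- The tile between two contacts of a corner tile. -/
lemma corner_safe (T : Tri L a b y) {z w m k : E}
    (hzm : 2 * inner ℝ z m = ‖m‖ ^ 2)
    (hm : Belt a b m) (hk : Belt a b k) (hkm : k ≠ m) (hwm : inner ℝ w m = ‖m‖ ^ 2)
    (hwk : inner ℝ w k = ‖k‖ ^ 2) (hom : om a b m w < 0) : Safe a b z (w - m) := by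
  have hmv : inner ℝ m (w - m) = 0 := by
    rw [inner_sub_right, real_inner_self_eq_norm_sq, real_inner_comm, hwm, sub_self]
  intro j hj hzj
  by_cases hjm : j = m
  · subst hjm
    have h1 : om a b j (w - j) = om a b j w := by
      unfold om
      rw [inner_sub_left, inner_sub_left]
      ring
    have h2 := hj.2.2
    rw [h1] at h2
    rcases h2 with h2 | h2
    · linarith
    · linarith [h2.1]
  · have hjn := ne_neg_of_face T hm hzm hzj
    obtain ⟨h1, h2⟩ := belt_zero hj.1 hm hjm hjn hj.2.1 hmv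
    have h3 := belt_inner_zero hk h1 h2
    rw [inner_sub_right, real_inner_comm, hwk] at h3
    have h4 := belt_lt T.g0 T.gA T.gB hk hm hkm
    linarith

/-- Step 2: each point is in a kept tile and on no removed facet of it. -/
theorem step2 (T : Tri L a b y) {z w : E} (hz : z ∈ Vor L) (hw : IsTile L y w)
    (hzw : InTile L z w) : ∃ w', Kept L a b y w' ∧ InTile L z w' ∧ Safe a b z w' := by
  -- first a safe tile
  obtain ⟨w, hw, hzw, hs⟩ : ∃ w, IsTile L y w ∧ InTile L z w ∧ Safe a b z w := by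
    by_cases hs : Safe a b z w
    · exact ⟨w, hw, hzw, hs⟩
    · unfold Safe at hs
      push Not at hs
      obtain ⟨m, hm, hzm⟩ := hs
      obtain ⟨h1, h2⟩ := step1 T hz hzw hm hzm
      exact ⟨w + m, hw.add (belt_mem T hm.1), h1, h2⟩
  have hwV := half_of_inTile hz hzw
  by_cases h0 : ∀ m, ¬ Con L w m
  · exact ⟨w, ⟨hw, hwV, Or.inl h0⟩, hzw, hs⟩
  push Not at h0
  obtain ⟨m, hm⟩ := h0
  have hmB := con_belt T hw hwV hm
  obtain ⟨hzm, hzv⟩ := con_point hz hzw hm
  have hkept : ∀ k, Con L w k → Kept L a b y (w - k) := fun k hk =>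
    ⟨hw.sub hk.1, mid_mem hwV hk, Or.inl fun j => mid_con T hw hwV hk⟩
  have hmv : inner ℝ m (w - m) = 0 := by
    rw [inner_sub_right, real_inner_self_eq_norm_sq, real_inner_comm, hm.2.2, sub_self]
  by_cases h1 : ∀ k, Con L w k → k = m
  · by_cases hd : Del a b (w - m) m
    · exact ⟨w, ⟨hw, hwV, Or.inr ⟨m, hm, h1, hd⟩⟩, hzw, hs⟩
    · by_cases hvs : Safe a b z (w - m)
      · exact ⟨w - m, hkept m hm, hzv, hvs⟩
      · unfold Safe at hvs
        push Not at hvs
        obtain ⟨k, hk, hzk⟩ := hvs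
        obtain ⟨h2, h3⟩ := step1 T hz hzv hk hzk
        refine ⟨w - m + k, ⟨(hw.sub hm.1).add (belt_mem T hk.1), half_of_inTile hz h2,
          Or.inr ⟨k, ?_, ?_, ?_⟩⟩, h2, h3⟩
        · refine ⟨belt_mem T hk.1, ?_, ?_⟩
          · rintro rfl
            exact belt_ne T.g0 T.gA T.gB hk.1 hk.1 (inner_zero_left _)
          · rw [inner_add_left, real_inner_self_eq_norm_sq, real_inner_comm, hk.2.1, zero_add]
        · intro j hj
          by_contra hjk
          have hjB := con_belt T ((hw.sub hm.1).add (belt_mem T hk.1)) (half_of_inTile hz h2) hj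
          have hkm : k ≠ m := by
            rintro rfl
            exact hd hk
          have hkn := ne_neg_of_face T hmB hzm hzk
          obtain ⟨h4, h5⟩ := belt_zero hk.1 hmB hkm hkn hk.2.1 hmv
          have h6 := belt_inner_zero hjB h4 h5
          have h7 := hj.2.2
          rw [inner_add_left, real_inner_comm, h6, zero_add, real_inner_comm] at h7
          exact absurd h7 (belt_lt T.g0 T.gA T.gB hjB hk.1 hjk).ne
        · rw [add_sub_cancel_right]
          exact hk
  · push Not at h1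
    obtain ⟨k, hk, hkm⟩ := h1
    have hkB := con_belt T hw hwV hk
    obtain ⟨hzk, hzu⟩ := con_point hz hzw hk
    have h2 := vor_pair hz hk.1 hm.1 hzk hzm
    have h3 : 0 < inner ℝ k m := lt_of_le_of_ne h2 (belt_ne T.g0 T.gA T.gB hkB hmB).symm
    rcases belt_om T.g0 T.gA T.gB hkB hmB hkm h3 hk.2.2 hm.2.2 with h4 | h4
    · exact ⟨w - k, hkept k hk, hzu,
        corner_safe T hzk hkB hmB hkm.symm hk.2.2 hm.2.2 h4⟩
    · exact ⟨w - m, hkept m hm, hzv,
        corner_safe T hzm hmB hkB hkm hm.2.2 hk.2.2 h4⟩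

/-- Step 3: kept tiles are in different classes modulo `2 L`. -/
theorem step3 (T : Tri L a b y) {w w' k : E} (hw : Kept L a b y w) (hw' : Kept L a b y w')
    (hk : k ∈ L) (h : w' = w - (2 : ℝ) • k) : w' = w := by
  by_contra hne
  have hk0 : k ≠ 0 := by
    rintro rfl
    apply hne
    rw [h, smul_zero, sub_zero]
  have e : (1 / 2 : ℝ) • w' = (1 / 2 : ℝ) • w - k := by
    rw [h]
    module
  have h1 := mem_vor.1 hw.2.1 k hk
  have h2 := mem_vor.1 hw'.2.1 (-k) (L.neg_mem hk)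
  rw [e, inner_neg_right, norm_neg, inner_sub_left, real_inner_self_eq_norm_sq] at h2
  rw [real_inner_smul_left] at h1 h2
  have h3 : inner ℝ w k = ‖k‖ ^ 2 := by linarith
  have c1 : Con L w k := ⟨hk, hk0, h3⟩
  have c2 : Con L w' (-k) := by
    refine ⟨L.neg_mem hk, neg_ne_zero.2 hk0, ?_⟩
    rw [h, inner_neg_right, norm_neg, inner_sub_left, real_inner_smul_left,
      real_inner_self_eq_norm_sq, h3]
    ring
  rcases hw.2.2 with h4 | ⟨m, -, hm1, hm2⟩
  · exact h4 k c1
  rcases hw'.2.2 with h5 | ⟨m', -, hm1', hm2'⟩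
  · exact h5 (-k) c2
  rw [← hm1 k c1] at hm2
  rw [← hm1' (-k) c2] at hm2'
  have e2 : w' - -k = w - k := by
    rw [h]
    module
  rw [e2] at hm2'
  have o1 : om a b (-k) (w - k) = -om a b k (w - k) := by
    unfold om
    rw [inner_neg_left, inner_neg_left]
    ring
  have h6 := hm2.2.2
  have h7 := hm2'.2.2
  rw [o1, inner_neg_left] at h7
  rcases h6 with h6 | h6 <;> rcases h7 with h7 | h7
  · linarith
  · linarith [h7.1]
  · linarith [h6.1]
  · linarith [h6.2, h7.2]

/-- Step 4: the class of `0` is not used. -/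
theorem step4 (T : Tri L a b y) {k : E} (hk : k ∈ L) :
    ¬ Kept L a b y ((2 : ℝ) • k - (2 : ℝ) • y) := by
  intro h
  have hna : a ≠ b := by
    intro h1
    have := T.gA
    rw [← h1, real_inner_self_eq_norm_sq] at this
    exact lt_irrefl _ this
  have ha0 : a ≠ 0 := by
    rintro rfl
    have := T.g0
    rw [inner_zero_left] at this
    exact lt_irrefl _ this
  have hb0 : b ≠ 0 := by
    rintro rfl
    have := T.g0
    rw [inner_zero_right] at this
    exact lt_irrefl _ this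
  have e : (1 / 2 : ℝ) • ((2 : ℝ) • k - (2 : ℝ) • y) = k - y := by module
  have h0 := h.2.1
  rw [e] at h0
  -- `k` is a nearest lattice point of `y`
  have hyk : 2 * inner ℝ y k = ‖k‖ ^ 2 := by
    have h1 := mem_vor.1 T.hy k hk
    have h2 := mem_vor.1 h0 k hk
    rw [inner_sub_left, real_inner_self_eq_norm_sq] at h2
    linarith
  -- two contacts
  have key : ∀ j, j ∈ L → 2 * inner ℝ y (k - j) = ‖k - j‖ ^ 2 → j ≠ 0 →
      Con L ((2 : ℝ) • k - (2 : ℝ) • y) j := by
    intro j hj hjk hj0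
    refine ⟨hj, hj0, ?_⟩
    rw [norm_sub_sq_real, inner_sub_right] at hjk
    rw [inner_sub_left, real_inner_smul_left, real_inner_smul_left]
    linarith
  have two : ∀ i j, Con L ((2 : ℝ) • k - (2 : ℝ) • y) i →
      Con L ((2 : ℝ) • k - (2 : ℝ) • y) j → i = j := by
    intro i j hi hj
    rcases h.2.2 with h4 | ⟨m, -, hm1, -⟩
    · exact absurd hi (h4 i)
    · rw [hm1 i hi, hm1 j hj]
  have hy0 : 2 * inner ℝ y (0 : E) = ‖(0 : E)‖ ^ 2 := by simp
  rcases T.hyJ k hk hyk with h1 | h1 | h1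
  · have c1 := key (k - a) (L.sub_mem hk T.ha) (by rw [sub_sub_cancel]; exact T.hya)
      (by rw [h1, zero_sub]; exact neg_ne_zero.2 ha0)
    have c2 := key (k - b) (L.sub_mem hk T.hb) (by rw [sub_sub_cancel]; exact T.hyb)
      (by rw [h1, zero_sub]; exact neg_ne_zero.2 hb0)
    have := two _ _ c1 c2
    exact hna (sub_right_injective this)
  · have c1 := key (k - 0) (L.sub_mem hk L.zero_mem) (by rw [sub_sub_cancel]; exact hy0)
      (by rw [h1, sub_zero]; exact ha0)
    have c2 := key (k - b) (L.sub_mem hk T.hb) (by rw [sub_sub_cancel]; exact T.hyb)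
      (by rw [h1]; exact sub_ne_zero.2 hna)
    have := two _ _ c1 c2
    exact hb0 (sub_right_injective this).symm
  · have c1 := key (k - a) (L.sub_mem hk T.ha) (by rw [sub_sub_cancel]; exact T.hya)
      (by rw [h1]; exact sub_ne_zero.2 hna.symm)
    have c2 := key (k - 0) (L.sub_mem hk L.zero_mem) (by rw [sub_sub_cancel]; exact hy0)
      (by rw [h1, sub_zero]; exact hb0)
    have := two _ _ c1 c2
    exact ha0 (sub_right_injective this)

/-- Step 5: for facets parallel to a tile, one of the two is removed. -/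
theorem step5 (T : Tri L a b y) {w m : E} (hw : IsTile L y w) (hm : Rel L m)
    (h : inner ℝ m w = 0) : Del a b w m ∨ Del a b w (-m) := by
  have hB := gen_zero T hw hm h
  have hBn := belt_neg hB
  have hBb : Belt a b b := Or.inr (Or.inl rfl)
  have h1 := belt_ne T.g0 T.gA T.gB hB hBb
  have o1 : om a b (-m) w = -om a b m w := by
    unfold om
    rw [inner_neg_left, inner_neg_left]
    ring
  have h2 : inner ℝ (-m) w = 0 := by rw [inner_neg_left, h, neg_zero]
  rcases lt_trichotomy (om a b m w) 0 with h3 | h3 | h3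
  · exact Or.inr ⟨hBn, h2, Or.inl (by rw [o1]; linarith)⟩
  · rcases lt_or_gt_of_ne h1 with h4 | h4
    · exact Or.inr ⟨hBn, h2, Or.inr ⟨by rw [o1, h3, neg_zero], by
        rw [inner_neg_left]
        linarith⟩⟩
    · exact Or.inl ⟨hB, h, Or.inr ⟨h3, h4⟩⟩
  · exact Or.inl ⟨hB, h, Or.inl h3⟩

end core

end Pool.Agent.TN
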