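import Mathlib
import Pool.Agent.TN.VCore
import Pool.Agent.TN.Main

/-!
# The Voronoi cell of a lattice
-/

set_option autoImplicit false

open MeasureTheory Set Filter
open scoped Pointwise Topology

namespace Pool.Agent.TN

open Pool.Agent.Rog (E SymBody)

variable {n : ℕ} (L : Submodule ℤ (E n)) [DiscreteTopology L]

lemma fin_ball (x : E n) (R : ℝ) : {l : E n | l ∈ L ∧ ‖x - l‖ ≤ R}.Finite := by
  have h1 : IsClosed (L : Set (E n)) := AddSubgroup.isClosed_of_discrete (H := L.toAddSubgroup)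
  have h2 := Metric.finite_isBounded_inter_isClosed (K := Metric.closedBall x R)
    (s := (L : Set (E n))) (DiscreteTopology.isDiscrete) Metric.isBounded_closedBall h1
  refine h2.subset ?_
  rintro l ⟨hl, hx⟩
  refine ⟨?_, hl⟩
  rw [Metric.mem_closedBall, dist_comm, dist_eq_norm]
  exact hx

/-- Nearest points. -/
lemma exists_near {T : Set (E n)} (hT : ∀ l ∈ T, l ∈ L) (hne : T.Nonempty) (x : E n) :
    ∃ b ∈ T, ∀ l ∈ T, ‖x - b‖ ≤ ‖x - l‖ := by
  obtain ⟨t, ht⟩ := hne
  have h1 : {l : E n | l ∈ T ∧ ‖x - l‖ ≤ ‖x - t‖}.Finite :=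
    (fin_ball L x ‖x - t‖).subset fun l hl => ⟨hT l hl.1, hl.2⟩
  obtain ⟨b, hb, hmin⟩ := h1.exists_minimalFor (fun l => ‖x - l‖) _ ⟨t, ht, le_rfl⟩
  refine ⟨b, hb.1, fun l hl => ?_⟩
  by_contra hcon
  push Not at hcon
  have h2 := hmin ⟨hl, hcon.le.trans hb.2⟩ hcon.le
  exact absurd h2 (not_le.2 hcon)

lemma vor_cover (x : E n) : ∃ l ∈ L, x - l ∈ Vor L := by
  obtain ⟨b, hb, hmin⟩ := exists_near L (T := (L : Set (E n))) (fun l hl => hl)
    ⟨0, L.zero_mem⟩ x
  refine ⟨b, hb, fun l hl => ?_⟩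
  have := hmin (b + l) (L.add_mem hb hl)
  rwa [← sub_sub] at this

omit [DiscreteTopology L] in
lemma vor_closed : IsClosed (Vor L) := by
  have : Vor L = ⋂ l ∈ L, {x : E n | ‖x‖ ≤ ‖x - l‖} := by
    ext x
    simp [Vor]
  rw [this]
  exact isClosed_biInter fun l _ => isClosed_le (by fun_prop) (by fun_prop)

lemma vor_int : (0 : E n) ∈ interior (Vor L) := by
  obtain ⟨r, hr, hmin⟩ : ∃ r : ℝ, 0 < r ∧ ∀ l ∈ L, l ≠ 0 → r ≤ ‖l‖ := by
    by_cases hne : {l : E n | l ∈ L ∧ l ≠ 0}.Nonempty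
    · obtain ⟨b, hb, hmin⟩ := exists_near L (T := {l : E n | l ∈ L ∧ l ≠ 0}) (fun l hl => hl.1)
        hne 0
      refine ⟨‖b‖, norm_pos_iff.2 hb.2, fun l hl h0 => ?_⟩
      have := hmin l ⟨hl, h0⟩
      simpa using this
    · rw [Set.not_nonempty_iff_eq_empty] at hne
      refine ⟨1, one_pos, fun l hl h0 => ?_⟩
      have : l ∈ {l : E n | l ∈ L ∧ l ≠ 0} := ⟨hl, h0⟩
      rw [hne] at this
      exact absurd this (Set.notMem_empty l)
  rw [mem_interior_iff_mem_nhds]
  refine Filter.mem_of_superset (Metric.ball_mem_nhds 0 (half_pos hr)) ?_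
  intro x hx l hl
  rw [mem_ball_zero_iff] at hx
  by_cases h0 : l = 0
  · rw [h0, sub_zero]
  · have h1 := hmin l hl h0
    have h2 := norm_sub_norm_le l x
    rw [norm_sub_rev l x] at h2
    linarith

variable [IsZLattice ℝ L]

lemma exists_radius : ∃ R : ℝ, ∀ x : E n, ∃ l ∈ L, ‖x - l‖ ≤ R := by
  set b := Module.Free.chooseBasis ℤ L with hb
  set B := b.ofZLatticeBasis ℝ L with hB
  have hspan : Submodule.span ℤ (Set.range B) = L := Module.Basis.ofZLatticeBasis_span ℝ L b
  refine ⟨∑ i, ‖B i‖, fun x => ⟨ZSpan.floor B x, ?_, ?_⟩⟩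
  · exact hspan.le (ZSpan.floor B x).2
  · have := ZSpan.norm_fract_le (K := ℝ) B x
    rw [ZSpan.fract_apply] at this
    exact this

lemma vor_bdd : ∃ R : ℝ, ∀ x ∈ Vor L, ‖x‖ ≤ R := by
  obtain ⟨R, hR⟩ := exists_radius L
  refine ⟨R, fun x hx => ?_⟩
  obtain ⟨l, hl, hxl⟩ := hR x
  exact (hx l hl).trans hxl

lemma vor_compact : IsCompact (Vor L) := by
  obtain ⟨R, hR⟩ := vor_bdd L
  refine Metric.isCompact_of_isClosed_isBounded (vor_closed L) ?_
  exact (Metric.isBounded_closedBall (x := (0 : E n)) (r := R)).subset fun x hx => by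
    rw [mem_closedBall_zero_iff]
    exact hR x hx

lemma vor_sym : SymBody (Vor L) :=
  ⟨vor_compact L, vor_convex, ⟨0, vor_int L⟩, fun _ hx => vor_neg hx⟩

/-- The relevant vectors are finitely many. -/
lemma rel_finite : {m : E n | Rel L m}.Finite := by
  obtain ⟨R, hR⟩ := vor_bdd L
  refine (fin_ball L 0 (2 * R)).subset fun m hm => ⟨hm.1, ?_⟩
  have := hR _ hm.2.2
  rw [norm_smul] at this
  rw [zero_sub, norm_neg]
  norm_num at this
  linarith

lemma vor_domain : IsAddFundamentalDomain L (Vor L) volume := by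
  refine ⟨(vor_closed L).measurableSet.nullMeasurableSet, ae_of_all _ fun x => ?_, ?_⟩
  · obtain ⟨l, hl, hx⟩ := vor_cover L x
    refine ⟨⟨-l, L.neg_mem hl⟩, ?_⟩
    change -l + x ∈ Vor L
    rwa [neg_add_eq_sub]
  · intro g h hgh
    have hne : (g : E n) ≠ h := fun he => hgh (Subtype.ext he)
    refine measure_mono_null (t := (AffineSubspace.perpBisector (g : E n) h : Set (E n))) ?_
      (Measure.addHaar_affineSubspace volume _ ?_)
    · rintro x ⟨⟨u, hu, rfl⟩, v, hv, hxv⟩
      change (h : E n) + v = (g : E n) + u at hxv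
      change (g : E n) + u ∈ AffineSubspace.perpBisector (g : E n) h
      rw [AffineSubspace.mem_perpBisector_iff_dist_eq, dist_eq_norm, dist_eq_norm]
      have e1 : (g : E n) + u - g = u := by abel
      have e2 : (g : E n) + u - h = v := by
        rw [← hxv]
        abel
      have h1 := hu ((h : E n) - g) (L.sub_mem h.2 g.2)
      have h2 := hv ((g : E n) - h) (L.sub_mem g.2 h.2)
      have e3 : u - ((h : E n) - g) = v := by
        rw [← e2]
        abel
      have e4 : v - ((g : E n) - h) = u := by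
        rw [← e3]
        abel
      rw [e3] at h1
      rw [e4] at h2
      rw [e1, e2]
      exact le_antisymm h1 h2
    · rw [Ne, AffineSubspace.perpBisector_eq_top]
      exact hne

lemma vor_vol : volume.real (Vor L) = ZLattice.covolume L :=
  (ZLattice.covolume_eq_measure_fundamentalDomain L volume (vor_domain L)).symm

end Pool.Agent.TN
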