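import Mathlib
import Pool.Agent.TN.VTop

/-!
# An acute Delaunay triangle
-/

set_option autoImplicit false

open MeasureTheory Set Filter
open scoped Pointwise Topology

namespace Pool.Agent.TN

open Pool.Agent.Rog (E SymBody)

variable {n : ℕ} (L : Submodule ℤ (E n))

/-- `s` splits off the lattice `L`. -/
def Split (s : E n) : Prop :=
  s ∈ L ∧ s ≠ 0 ∧ ∀ l ∈ L, ∃ k : ℤ, inner ℝ s l = k * ‖s‖ ^ 2

lemma int_sq (k : ℤ) : (0 : ℝ) ≤ (k : ℝ) ^ 2 - k := by
  have h : (0 : ℤ) ≤ k ^ 2 - k := by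
    rcases le_or_gt k 0 with h | h
    · nlinarith
    · nlinarith
  exact_mod_cast h

lemma int_sq_pos {k : ℤ} (h0 : k ≠ 0) (h1 : k ≠ 1) : (0 : ℝ) < (k : ℝ) ^ 2 - k := by
  have h : (0 : ℤ) < k ^ 2 - k := by
    rcases lt_or_gt_of_ne h0 with h | h
    · nlinarith
    · have : 2 ≤ k := by omega
      nlinarith
  exact_mod_cast h

lemma fin2 {k : ℤ} {A g : ℝ} (hk : k ≠ 0) (hA : 0 < A) (hg : 0 < g) (h : 2 * g ≤ A) :
    0 < ((k : ℝ) ^ 2 - k) * A + 2 * k * g := by
  rcases lt_or_gt_of_ne hk with hk0 | hk0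
  · have h10 : (k : ℝ) ≤ -1 := by exact_mod_cast (by omega : k ≤ -1)
    have h1 : 0 ≤ (-(k : ℝ)) * (A - 2 * g) := mul_nonneg (by linarith) (by linarith)
    have h2 : 0 < (k : ℝ) ^ 2 * A := mul_pos (by nlinarith) hA
    linarith
  · have h9 : (1 : ℝ) ≤ k := by exact_mod_cast (by omega : 1 ≤ k)
    have h1 := mul_nonneg (int_sq k) hA.le
    have h2 : 0 < (k : ℝ) * g := mul_pos (by linarith) hg
    linarith

lemma fin1 (k : ℤ) {A g : ℝ} (hA : 0 < A) (hg : 0 < g) (h : 2 * g ≤ A) :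
    0 ≤ ((k : ℝ) ^ 2 - k) * A + 2 * k * g := by
  by_cases hk : k = 0
  · subst hk
    simp
  · exact (fin2 hk hA hg h).le

lemma smul_int_mem {L : Submodule ℤ (E n)} {a : E n} (ha : a ∈ L) (k : ℤ) :
    (k : ℝ) • a ∈ L := by
  have := L.smul_mem k ha
  rwa [← Int.cast_smul_eq_zsmul ℝ] at this

theorem exists_acute [DiscreteTopology L]
    (h : ∃ a ∈ L, a ≠ 0 ∧ ∀ s, Split L s → inner ℝ s a = 0) :
    ∃ a ∈ L, ∃ b ∈ L, 0 < inner ℝ a b ∧ inner ℝ a b < ‖a‖ ^ 2 ∧ inner ℝ a b < ‖b‖ ^ 2 ∧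
      ∃ o : E n, 2 * inner ℝ o a = ‖a‖ ^ 2 ∧ 2 * inner ℝ o b = ‖b‖ ^ 2 ∧
        ∀ l ∈ L, l ≠ 0 → l ≠ a → l ≠ b → 2 * inner ℝ o l < ‖l‖ ^ 2 := by
  obtain ⟨t, htL, ht0, hts⟩ := h
  -- the shortest vector orthogonal to the split ones
  obtain ⟨a, ⟨haL, ha0, has⟩, hamin⟩ := exists_near L
    (T := {l : E n | l ∈ L ∧ l ≠ 0 ∧ ∀ s, Split L s → inner ℝ s l = 0}) (fun l hl => hl.1)
    ⟨t, htL, ht0, hts⟩ 0
  have hA : 0 < ‖a‖ ^ 2 := by
    have := norm_pos_iff.2 ha0
    positivity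
  have hns : ¬ Split L a := by
    intro hs
    have := has a hs
    rw [real_inner_self_eq_norm_sq] at this
    linarith
  have hex : ∃ l ∈ L, ∀ k : ℤ, inner ℝ a l ≠ k * ‖a‖ ^ 2 := by
    unfold Split at hns
    push Not at hns
    exact hns haL ha0
  obtain ⟨l1, hl1, hl1k⟩ := hex
  obtain ⟨b0, ⟨hb0L, hb0k⟩, hb0min⟩ := exists_near L
    (T := {l : E n | l ∈ L ∧ ∀ k : ℤ, inner ℝ a l ≠ k * ‖a‖ ^ 2}) (fun l hl => hl.1)
    ⟨l1, hl1, hl1k⟩ 0
  have hb00 : b0 ≠ 0 := by
    rintro rfl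
    exact hb0k 0 (by simp)
  -- `b0` is orthogonal to the split vectors
  have hb0s : ∀ s, Split L s → inner ℝ s b0 = 0 := by
    intro s hs
    obtain ⟨k, hk⟩ := hs.2.2 b0 hb0L
    have has' := has s hs
    have h1 := hb0min (b0 - (k : ℝ) • s) ⟨L.sub_mem hb0L (smul_int_mem hs.1 k), fun j => by
      rw [inner_sub_right, inner_smul_right, real_inner_comm s a, has', mul_zero, sub_zero]
      exact hb0k j⟩
    simp only [zero_sub, norm_neg] at h1
    have h2 := pow_le_pow_left₀ (norm_nonneg _) h1 2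
    rw [norm_sub_sq_real, inner_smul_right, real_inner_comm, hk, norm_smul, mul_pow,
      Real.norm_eq_abs, sq_abs] at h2
    have h3 : (k : ℝ) ^ 2 * ‖s‖ ^ 2 ≤ 0 := by nlinarith
    have hs0 : 0 < ‖s‖ ^ 2 := by
      have := norm_pos_iff.2 hs.2.1
      positivity
    have h4 : (k : ℝ) ^ 2 = 0 := by
      have h5 : 0 ≤ (k : ℝ) ^ 2 := sq_nonneg _
      nlinarith
    have h5 : (k : ℝ) = 0 := by
      exact pow_eq_zero_iff (two_ne_zero) |>.1 h4
    rw [hk, h5, zero_mul]
  have hab0 : ‖a‖ ≤ ‖b0‖ := by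
    have := hamin b0 ⟨hb0L, hb00, hb0s⟩
    simpa using this
  -- the sign
  obtain ⟨b, hbL, hbk, hbmin, hab, hg0⟩ : ∃ b ∈ L, (∀ k : ℤ, inner ℝ a b ≠ k * ‖a‖ ^ 2) ∧
      (∀ l ∈ L, (∀ k : ℤ, inner ℝ a l ≠ k * ‖a‖ ^ 2) → ‖b‖ ≤ ‖l‖) ∧ ‖a‖ ≤ ‖b‖ ∧
      0 < inner ℝ a b := by
    have hmin' : ∀ l ∈ L, (∀ k : ℤ, inner ℝ a l ≠ k * ‖a‖ ^ 2) → ‖b0‖ ≤ ‖l‖ := by
      intro l hl hlk
      have := hb0min l ⟨hl, hlk⟩
      simpa using this
    have hne : inner ℝ a b0 ≠ 0 := by
      have := hb0k 0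
      simpa using this
    rcases lt_or_gt_of_ne hne with h1 | h1
    · refine ⟨-b0, L.neg_mem hb0L, fun k => ?_, fun l hl hlk => ?_, ?_, ?_⟩
      · intro hk
        apply hb0k (-k)
        rw [inner_neg_right] at hk
        push_cast
        linarith
      · rw [norm_neg]
        exact hmin' l hl hlk
      · rw [norm_neg]
        exact hab0
      · rw [inner_neg_right]
        linarith
    · exact ⟨b0, hb0L, hb0k, hmin', hab0, h1⟩
  have hsq : ∀ l ∈ L, (∀ k : ℤ, inner ℝ a l ≠ k * ‖a‖ ^ 2) → ‖b‖ ^ 2 ≤ ‖l‖ ^ 2 :=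
    fun l hl hlk => pow_le_pow_left₀ (norm_nonneg _) (hbmin l hl hlk) 2
  have hAB : ‖a‖ ^ 2 ≤ ‖b‖ ^ 2 := pow_le_pow_left₀ (norm_nonneg _) hab 2
  have hshift : ∀ (l : E n) (k : ℤ), (∀ k : ℤ, inner ℝ a l ≠ k * ‖a‖ ^ 2) →
      ∀ j : ℤ, inner ℝ a (l - (k : ℝ) • a) ≠ j * ‖a‖ ^ 2 := by
    intro l k hl j hj
    apply hl (j + k)
    rw [inner_sub_right, inner_smul_right, real_inner_self_eq_norm_sq] at hj
    push_cast
    linarith
  set g := inner ℝ a b with hg
  set A := ‖a‖ ^ 2 with hAdef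
  set B := ‖b‖ ^ 2 with hBdef
  have haa : inner ℝ a a = A := real_inner_self_eq_norm_sq a
  have hbb : inner ℝ b b = B := real_inner_self_eq_norm_sq b
  have hba : inner ℝ b a = g := real_inner_comm _ _
  have h2g : 2 * g ≤ A := by
    have h1 := hsq (b - ((1 : ℤ) : ℝ) • a) (L.sub_mem hbL (smul_int_mem haL 1)) (hshift b 1 hbk)
    rw [Int.cast_one, one_smul, norm_sub_sq_real, hba, ← hAdef, ← hBdef] at h1
    linarith
  have hgA : g < A := by linarith
  have hgB : g < B := by linarith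
  have hΔ : 0 < A * B - g ^ 2 := by nlinarith
  set p := B * (A - g) / (2 * (A * B - g ^ 2)) with hp
  set q := A * (B - g) / (2 * (A * B - g ^ 2)) with hq
  have hB : 0 < B := by linarith
  have hp0 : 0 < p := div_pos (mul_pos hB (by linarith)) (by linarith)
  have hq0 : 0 < q := div_pos (mul_pos hA (by linarith)) (by linarith)
  have hpq : p + q < 1 := by
    rw [hp, hq, ← add_div, div_lt_one (by linarith)]
    nlinarith [mul_pos hg0 (by linarith : 0 < A + B - 2 * g)]
  have hoa : 2 * (p * A + q * g) = A := by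
    rw [hp, hq, div_mul_eq_mul_div, div_mul_eq_mul_div, ← add_div, ← mul_div_assoc,
      div_eq_iff (by linarith)]
    ring
  have hob : 2 * (p * g + q * B) = B := by
    rw [hp, hq, div_mul_eq_mul_div, div_mul_eq_mul_div, ← add_div, ← mul_div_assoc,
      div_eq_iff (by linarith)]
    ring
  refine ⟨a, haL, b, hbL, hg0, hgA, hgB, p • a + q • b, ?_, ?_, ?_⟩
  · rw [inner_add_left, real_inner_smul_left, real_inner_smul_left, haa, hba]
    exact hoa
  · rw [inner_add_left, real_inner_smul_left, real_inner_smul_left, hbb, ← hg]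
    exact hob
  -- vectors orthogonal to `a`
  have horth : ∀ u ∈ L, inner ℝ a u = 0 → 2 * |inner ℝ b u| ≤ ‖u‖ ^ 2 := by
    intro u hu hau
    have h1 := hsq (b - u) (L.sub_mem hbL hu) (fun k => by
      rw [inner_sub_right, hau, sub_zero]
      exact hbk k)
    have h2 := hsq (b + u) (L.add_mem hbL hu) (fun k => by
      rw [inner_add_right, hau, add_zero]
      exact hbk k)
    rw [norm_sub_sq_real, ← hBdef] at h1
    rw [norm_add_sq_real, ← hBdef] at h2
    rcases abs_cases (inner ℝ b u) with h3 | h3 <;> rw [h3.1] <;> linarith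
  intro l hl hl0 hla hlb
  have hol : 2 * inner ℝ (p • a + q • b) l = p * (2 * inner ℝ a l) + q * (2 * inner ℝ b l) := by
    rw [inner_add_left, real_inner_smul_left, real_inner_smul_left]
    ring
  rw [hol]
  by_cases hU : ∃ k : ℤ, inner ℝ a l = k * A
  · obtain ⟨k, hk⟩ := hU
    set u := l - (k : ℝ) • a with hu
    have huL : u ∈ L := L.sub_mem hl (smul_int_mem haL k)
    have hau : inner ℝ a u = 0 := by
      rw [hu, inner_sub_right, inner_smul_right, haa, hk, sub_self]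
    have h1 := horth u huL hau
    have hlu : l = (k : ℝ) • a + u := by rw [hu]; abel
    have hbl : inner ℝ b l = k * g + inner ℝ b u := by
      rw [hlu, inner_add_right, inner_smul_right, hba]
    have hll : ‖l‖ ^ 2 = (k : ℝ) ^ 2 * A + ‖u‖ ^ 2 := by
      rw [hlu, norm_add_sq_real, real_inner_smul_left, hau, norm_smul, mul_pow,
        Real.norm_eq_abs, sq_abs]
      ring
    rw [hk, hbl, hll]
    have h2 : q * (2 * inner ℝ b u) ≤ q * ‖u‖ ^ 2 :=
      mul_le_mul_of_nonneg_left (by linarith [le_abs_self (inner ℝ b u)]) hq0.le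
    have h3 : p * (2 * (k * A)) + q * (2 * (k * g + inner ℝ b u)) =
        k * A + q * (2 * inner ℝ b u) := by
      linear_combination (k : ℝ) * hoa
    rw [h3]
    have h4 := int_sq k
    by_cases hu0 : u = 0
    · have hk0 : k ≠ 0 := by
        rintro rfl
        apply hl0
        rw [hlu, hu0]
        simp
      have hk1 : k ≠ 1 := by
        rintro rfl
        apply hla
        rw [hlu, hu0]
        simp
      have h5 := mul_pos (int_sq_pos hk0 hk1) hA
      rw [hu0, inner_zero_right, norm_zero]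
      linarith
    · have h5 : 0 < ‖u‖ ^ 2 := by
        have := norm_pos_iff.2 hu0
        positivity
      have h6 : 0 < (1 - q) * ‖u‖ ^ 2 := mul_pos (by linarith) h5
      have h7 := mul_nonneg h4 hA.le
      linarith
  · push Not at hU
    by_cases hV : ∃ k : ℤ, inner ℝ a (l - b) = k * A
    · obtain ⟨k, hk⟩ := hV
      set u := l - b - (k : ℝ) • a with hu
      have huL : u ∈ L := L.sub_mem (L.sub_mem hl hbL) (smul_int_mem haL k)
      have hau : inner ℝ a u = 0 := by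
        rw [hu, inner_sub_right, inner_smul_right, haa, hk, sub_self]
      have h1 := horth u huL hau
      have hlu : l = b + ((k : ℝ) • a + u) := by rw [hu]; abel
      have hal : inner ℝ a l = g + k * A := by
        rw [inner_sub_right, ← hg] at hk
        linarith
      have hbl : inner ℝ b l = B + k * g + inner ℝ b u := by
        rw [hlu, inner_add_right, inner_add_right, inner_smul_right, hba, hbb]
        ring
      have hll : ‖l‖ ^ 2 = B + 2 * (k * g + inner ℝ b u) + ((k : ℝ) ^ 2 * A + ‖u‖ ^ 2) := by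
        rw [hlu, norm_add_sq_real, norm_add_sq_real, real_inner_smul_left, hau, norm_smul,
          mul_pow, Real.norm_eq_abs, sq_abs, inner_add_right, inner_smul_right, hba]
        ring
      rw [hal, hbl, hll]
      have h2 : -((1 - q) * ‖u‖ ^ 2) ≤ (1 - q) * (2 * inner ℝ b u) := by
        rw [← mul_neg]
        exact mul_le_mul_of_nonneg_left (by linarith [neg_abs_le (inner ℝ b u)]) (by linarith)
      have h3 : p * (2 * (g + k * A)) + q * (2 * (B + k * g + inner ℝ b u)) =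
          B + k * A + q * (2 * inner ℝ b u) := by
        linear_combination hob + (k : ℝ) * hoa
      rw [h3]
      have h8 := fin1 k hA hg0 h2g
      by_cases hu0 : u = 0
      · have hk0 : k ≠ 0 := by
          rintro rfl
          apply hlb
          rw [hlu, hu0]
          simp
        have h9 := fin2 hk0 hA hg0 h2g
        rw [hu0, inner_zero_right, norm_zero]
        linarith
      · have h5 : 0 < ‖u‖ ^ 2 := by
          have := norm_pos_iff.2 hu0
          positivity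
        have h6 : 0 < q * ‖u‖ ^ 2 := mul_pos hq0 h5
        linarith
    · push Not at hV
      have h1 := hsq (l - b) (L.sub_mem hl hbL) hV
      have h2 := hsq (l - ((1 : ℤ) : ℝ) • a) (L.sub_mem hl (smul_int_mem haL 1))
        (hshift l 1 hU)
      rw [norm_sub_sq_real, ← hBdef, real_inner_comm] at h1
      rw [Int.cast_one, one_smul, norm_sub_sq_real, ← hAdef, real_inner_comm] at h2
      have h3 : p * (2 * inner ℝ a l) ≤ p * ‖l‖ ^ 2 :=
        mul_le_mul_of_nonneg_left (by linarith) hp0.le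
      have h4 : q * (2 * inner ℝ b l) ≤ q * ‖l‖ ^ 2 :=
        mul_le_mul_of_nonneg_left (by linarith) hq0.le
      have h5 : 0 < ‖l‖ ^ 2 := by
        have := norm_pos_iff.2 hl0
        positivity
      have h6 : 0 < (1 - (p + q)) * ‖l‖ ^ 2 := mul_pos (by linarith) h5
      linarith

end Pool.Agent.TN
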