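import Mathlib
import Pool.Agent.TN.VTri

/-!
# A generic point with three nearest lattice points
-/

set_option autoImplicit false

open MeasureTheory Set Filter
open scoped Pointwise Topology

namespace Pool.Agent.TN

open Pool.Agent.Rog (E SymBody)

variable {n : ℕ} {L : Submodule ℤ (E n)}

lemma rel_le {m l : E n} (hm : Rel L m) (hl : l ∈ L) : inner ℝ m l ≤ ‖l‖ ^ 2 := by
  have := mem_vor.1 hm.2.2 l hl
  rw [real_inner_smul_left] at this
  linarith

/-- `o` has exactly the nearest points `0`, `k`, `k'`. -/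
def Three (L : Submodule ℤ (E n)) (o k k' : E n) : Prop :=
  k ∈ L ∧ k' ∈ L ∧ 2 * inner ℝ o k = ‖k‖ ^ 2 ∧ 2 * inner ℝ o k' = ‖k'‖ ^ 2 ∧
    ∀ l ∈ L, l ≠ 0 → l ≠ k → l ≠ k' → 2 * inner ℝ o l < ‖l‖ ^ 2

lemma Three.le {o k k' : E n} (h : Three L o k k') {l : E n} (hl : l ∈ L) :
    2 * inner ℝ o l ≤ ‖l‖ ^ 2 := by
  by_cases h0 : l = 0
  · subst h0
    simp
  by_cases h1 : l = k
  · subst h1
    exact h.2.2.1.le
  by_cases h2 : l = k'
  · subst h2
    exact h.2.2.2.1.le
  exact (h.2.2.2.2 l hl h0 h1 h2).le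

lemma Three.swap {o k k' : E n} (h : Three L o k k') : Three L o k' k :=
  ⟨h.2.1, h.1, h.2.2.2.1, h.2.2.1, fun l hl h0 h1 h2 => h.2.2.2.2 l hl h0 h2 h1⟩

/-- Seen from `k`. -/
lemma Three.shift {o k k' : E n} (h : Three L o k k') : Three L (o - k) (k' - k) (-k) := by
  have e : ∀ l : E n, 2 * inner ℝ (o - k) l - ‖l‖ ^ 2 =
      2 * inner ℝ o (l + k) - ‖l + k‖ ^ 2 := by
    intro l
    have h1 := h.2.2.1
    rw [inner_sub_left, inner_add_right, norm_add_sq_real, real_inner_comm l k]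
    linarith
  refine ⟨L.sub_mem h.2.1 h.1, L.neg_mem h.1, ?_, ?_, ?_⟩
  · have h1 := e (k' - k)
    rw [sub_add_cancel, h.2.2.2.1, sub_self] at h1
    linarith
  · have h1 := e (-k)
    rw [neg_add_cancel] at h1
    simp only [inner_zero_right, mul_zero, norm_zero, ne_eq, OfNat.ofNat_ne_zero,
      not_false_eq_true, zero_pow, sub_zero] at h1
    linarith
  · intro l hl h0 h1 h2
    have h3 := h.2.2.2.2 (l + k) (L.add_mem hl h.1)
      (fun hc => h2 (eq_neg_of_add_eq_zero_left hc))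
      (fun hc => h0 (by simpa using hc)) (fun hc => h1 (by rw [← hc, add_sub_cancel_right]))
    have h4 := e l
    linarith

lemma cone_case {o k k' m : E n} (h : Three L o k k') (hm : Rel L m) {s t : ℝ} (hs : 0 ≤ s)
    (ht : 0 ≤ t) (he : m = s • k + t • k') : m = k ∨ m = k' := by
  by_contra hcon
  push Not at hcon
  have h1 := h.2.2.2.2 m hm.1 hm.2.1 hcon.1 hcon.2
  have h2 : inner ℝ m m = s * inner ℝ m k + t * inner ℝ m k' := by
    nth_rewrite 2 [he]
    rw [inner_add_right, inner_smul_right, inner_smul_right]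
  have h3 : 2 * inner ℝ o m = s * ‖k‖ ^ 2 + t * ‖k'‖ ^ 2 := by
    rw [he, inner_add_right, inner_smul_right, inner_smul_right, ← h.2.2.1, ← h.2.2.2.1]
    ring
  rw [real_inner_self_eq_norm_sq] at h2
  have h4 := mul_le_mul_of_nonneg_left (rel_le hm h.1) hs
  have h5 := mul_le_mul_of_nonneg_left (rel_le hm h.2.1) ht
  linarith

lemma Three.neg {o k k' : E n} (h : Three L o k k') : Three L (-o) (-k) (-k') := by
  refine ⟨L.neg_mem h.1, L.neg_mem h.2.1, ?_, ?_, ?_⟩
  · rw [inner_neg_neg, norm_neg]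
    exact h.2.2.1
  · rw [inner_neg_neg, norm_neg]
    exact h.2.2.2.1
  · intro l hl h0 h1 h2
    have := h.2.2.2.2 (-l) (L.neg_mem hl) (neg_ne_zero.2 h0)
      (fun hc => h1 (by rw [← hc, neg_neg])) (fun hc => h2 (by rw [← hc, neg_neg]))
    rw [norm_neg, inner_neg_right] at this
    rw [inner_neg_left]
    exact this

lemma rel_neg {m : E n} (hm : Rel L m) : Rel L (-m) := by
  refine ⟨L.neg_mem hm.1, neg_ne_zero.2 hm.2.1, ?_⟩
  rw [smul_neg]
  exact vor_neg hm.2.2

/-- Relevant vectors in the plane of `a`, `b` belong to the belt: upper half plane. -/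
lemma planar_pos {o a b m : E n} (h : Three L o a b) (hm : Rel L m) {p q : ℝ}
    (he : m = p • a + q • b) (hq : 0 ≤ q) : Belt a b m := by
  unfold Belt
  rcases le_or_gt 0 p with hp | hp
  · rcases cone_case h hm hp hq he with h1 | h1
    · exact Or.inl h1
    · exact Or.inr (Or.inl h1)
  · rcases le_or_gt 0 (p + q) with hpq | hpq
    · -- between `b` and `b - a`
      have h2 : Three L (b - o) b (b - a) := by
        have h3 := h.swap.shift.neg
        -- `-(o - b)`, `-(a - b)`, `-(-b)`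
        have h4 := h3.swap
        rw [neg_sub, neg_sub, neg_neg] at h4
        exact h4
      rcases cone_case h2 hm hpq (by linarith : (0 : ℝ) ≤ -p) (by rw [he]; module) with h1 | h1
      · exact Or.inr (Or.inl h1)
      · exact Or.inr (Or.inr (Or.inl h1))
    · rcases cone_case h.shift hm hq (by linarith : (0 : ℝ) ≤ -(p + q))
        (by rw [he]; module) with h1 | h1
      · exact Or.inr (Or.inr (Or.inl h1))
      · exact Or.inr (Or.inr (Or.inr (Or.inl h1)))

lemma planar {o a b m : E n} (h : Three L o a b) (hm : Rel L m) {p q : ℝ}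
    (he : m = p • a + q • b) : Belt a b m := by
  rcases le_or_gt 0 q with hq | hq
  · exact planar_pos h hm he hq
  · have h1 := planar_pos h (rel_neg hm) (p := -p) (q := -q) (by rw [he]; module) (by linarith)
    have h2 := belt_neg h1
    rwa [neg_neg] at h2

/-- The gap near `o`. -/
lemma gap [DiscreteTopology L] {o a b : E n} (h : Three L o a b) :
    ∃ ε : ℝ, 0 < ε ∧ ∀ e : E n, ‖e‖ < ε → ∀ l ∈ L, l ≠ 0 → l ≠ a → l ≠ b →
      2 * inner ℝ (o + e) l < ‖l‖ ^ 2 := by
  set R := 2 * (‖o‖ + 1) with hR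
  have hfin : {l : E n | l ∈ L ∧ ‖l‖ ≤ R ∧ l ≠ 0 ∧ l ≠ a ∧ l ≠ b}.Finite := by
    refine (fin_ball L 0 R).subset fun l hl => ⟨hl.1, ?_⟩
    rw [zero_sub, norm_neg]
    exact hl.2.1
  have hU : IsOpen (⋂ l ∈ {l : E n | l ∈ L ∧ ‖l‖ ≤ R ∧ l ≠ 0 ∧ l ≠ a ∧ l ≠ b},
      {y : E n | 2 * inner ℝ y l < ‖l‖ ^ 2}) :=
    hfin.isOpen_biInter fun l _ => isOpen_lt (by fun_prop) continuous_const
  have ho : o ∈ ⋂ l ∈ {l : E n | l ∈ L ∧ ‖l‖ ≤ R ∧ l ≠ 0 ∧ l ≠ a ∧ l ≠ b},
      {y : E n | 2 * inner ℝ y l < ‖l‖ ^ 2} := by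
    rw [Set.mem_iInter₂]
    exact fun l hl => h.2.2.2.2 l hl.1 hl.2.2.1 hl.2.2.2.1 hl.2.2.2.2
  obtain ⟨ε, hε, hball⟩ := Metric.isOpen_iff.1 hU o ho
  refine ⟨min ε 1, lt_min hε one_pos, fun e he l hl h0 h1 h2 => ?_⟩
  by_cases hlR : ‖l‖ ≤ R
  · have h3 : o + e ∈ Metric.ball o ε := by
      rw [mem_ball_iff_norm, add_sub_cancel_left]
      exact he.trans_le (min_le_left _ _)
    have h4 := hball h3
    rw [Set.mem_iInter₂] at h4
    exact h4 l ⟨hl, hlR, h0, h1, h2⟩
  · push Not at hlR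
    have h3 := real_inner_le_norm (o + e) l
    have h4 : ‖o + e‖ ≤ ‖o‖ + 1 :=
      (norm_add_le _ _).trans (by linarith [he.trans_le (min_le_right ε 1)])
    have h5 : ‖o + e‖ * ‖l‖ ≤ (‖o‖ + 1) * ‖l‖ := mul_le_mul_of_nonneg_right h4 (norm_nonneg _)
    have h6 : 0 < ‖l‖ := norm_pos_iff.2 h0
    nlinarith

/-- The generic point. -/
theorem exists_tri [DiscreteTopology L] [IsZLattice ℝ L] {o a b : E n} (h : Three L o a b)
    (g0 : 0 < inner ℝ a b) (gA : inner ℝ a b < ‖a‖ ^ 2) (gB : inner ℝ a b < ‖b‖ ^ 2) :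
    ∃ y : E n, Tri L a b y := by
  obtain ⟨ε, hε, hgap⟩ := gap h
  set P : Submodule ℝ (E n) := Submodule.span ℝ {a, b} with hP
  have hfin : Finite {m : E n // Rel L m ∧ ¬ Belt a b m} := by
    have : {m : E n | Rel L m ∧ ¬ Belt a b m}.Finite :=
      (rel_finite L).subset fun m hm => hm.1
    exact this.to_subtype
  obtain ⟨d, hdP, hd⟩ := Module.Dual.exists_forall_mem_ne_zero_of_forall_exists Pᗮ
    (fun m : {m : E n // Rel L m ∧ ¬ Belt a b m} => (innerₛₗ ℝ (m : E n))) (by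
      rintro ⟨m, hm, hmB⟩
      by_contra hcon
      push Not at hcon
      apply hmB
      have h1 : m ∈ Pᗮᗮ := by
        rw [Submodule.mem_orthogonal']
        intro u hu
        exact hcon u hu
      rw [Submodule.orthogonal_orthogonal, hP, Submodule.mem_span_pair] at h1
      obtain ⟨p, q, hpq⟩ := h1
      exact planar h hm hpq.symm)
  have hda : inner ℝ d a = 0 :=
    Submodule.inner_left_of_mem_orthogonal (Submodule.subset_span (by simp)) hdP
  have hdb : inner ℝ d b = 0 :=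
    Submodule.inner_left_of_mem_orthogonal (Submodule.subset_span (by simp)) hdP
  have : Countable L := inferInstance
  set bad : Set ℝ := ⋃ m : {m : E n // Rel L m ∧ ¬ Belt a b m}, ⋃ l : L,
    {t : ℝ | 2 * inner ℝ (m : E n) (o + t • d) = inner ℝ (m : E n) (l : E n)} with hbad
  have hbadc : bad.Countable := by
    refine Set.countable_iUnion fun m => Set.countable_iUnion fun l => ?_
    refine Set.Subsingleton.countable ?_
    intro s hs t ht
    have h1 : inner ℝ (m : E n) d ≠ 0 := hd m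
    change 2 * inner ℝ (m : E n) (o + s • d) = inner ℝ (m : E n) (l : E n) at hs
    change 2 * inner ℝ (m : E n) (o + t • d) = inner ℝ (m : E n) (l : E n) at ht
    rw [← ht, inner_add_right, inner_add_right, inner_smul_right, inner_smul_right] at hs
    have h2 : (s - t) * inner ℝ (m : E n) d = 0 := by linarith
    rcases mul_eq_zero.1 h2 with h3 | h3
    · linarith
    · exact absurd h3 h1
  have hdense := hbadc.dense_compl ℝ
  obtain ⟨t, ht, htbad⟩ := hdense.inter_open_nonempty (Set.Ioo 0 (ε / (‖d‖ + 1))) isOpen_Ioo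
    (by
      rw [Set.nonempty_Ioo]
      positivity)
  have hte : ‖t • d‖ < ε := by
    rw [norm_smul, Real.norm_eq_abs, abs_of_pos ht.1]
    have h1 := ht.2
    rw [lt_div_iff₀ (by positivity)] at h1
    have h2 : t * ‖d‖ < t * (‖d‖ + 1) := mul_lt_mul_of_pos_left (by linarith) ht.1
    linarith
  have hya : 2 * inner ℝ (o + t • d) a = ‖a‖ ^ 2 := by
    rw [inner_add_left, real_inner_smul_left, hda, mul_zero, add_zero]
    exact h.2.2.1
  have hyb : 2 * inner ℝ (o + t • d) b = ‖b‖ ^ 2 := by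
    rw [inner_add_left, real_inner_smul_left, hdb, mul_zero, add_zero]
    exact h.2.2.2.1
  have hy3 : Three L (o + t • d) a b := ⟨h.1, h.2.1, hya, hyb, hgap _ hte⟩
  refine ⟨o + t • d, h.1, h.2.1, g0, gA, gB, ?_, hya, hyb, ?_, ?_⟩
  · exact mem_vor.2 fun l hl => hy3.le hl
  · intro l hl hle
    by_contra hcon
    push Not at hcon
    exact absurd hle (hy3.2.2.2.2 l hl hcon.1 hcon.2.1 hcon.2.2).ne
  · intro m hm hm0 hmV hmB l hl hcon
    apply htbad
    rw [hbad, Set.mem_iUnion]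
    refine ⟨⟨m, ⟨hm, hm0, hmV⟩, hmB⟩, ?_⟩
    rw [Set.mem_iUnion]
    exact ⟨⟨l, hl⟩, hcon⟩

/-- Non-rectangular lattices. -/
theorem exists_tri_of [DiscreteTopology L] [IsZLattice ℝ L]
    (h : ∃ a ∈ L, a ≠ 0 ∧ ∀ s, Split L s → inner ℝ s a = 0) :
    ∃ a b y : E n, Tri L a b y := by
  obtain ⟨a, ha, b, hb, g0, gA, gB, o, hoa, hob, ho⟩ := exists_acute L h
  obtain ⟨y, hy⟩ := exists_tri (L := L) (o := o) ⟨ha, hb, hoa, hob, ho⟩ g0 gA gB
  exact ⟨a, b, y, hy⟩

end Pool.Agent.TN
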