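import Mathlib
import Pool.Agent.TN.VGen

/-!
# The cell of a non-rectangular lattice is a union of `2 ^ n - 1` smaller pieces
-/

set_option autoImplicit false

open MeasureTheory Set Filter
open scoped Pointwise Topology

namespace Pool.Agent.TN

open Pool.Agent.Rog (E SymBody)

variable {n : ℕ} {L : Submodule ℤ (E n)}

lemma gap_gen [DiscreteTopology L] {u : E n}
    (h : ∀ l ∈ L, l ≠ 0 → 2 * inner ℝ u l < ‖l‖ ^ 2) :
    ∃ ε : ℝ, 0 < ε ∧ ∀ e : E n, ‖e‖ < ε → ∀ l ∈ L, l ≠ 0 →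
      2 * inner ℝ (u + e) l < ‖l‖ ^ 2 := by
  set R := 2 * (‖u‖ + 1) with hR
  have hfin : {l : E n | l ∈ L ∧ ‖l‖ ≤ R ∧ l ≠ 0}.Finite := by
    refine (fin_ball L 0 R).subset fun l hl => ⟨hl.1, ?_⟩
    rw [zero_sub, norm_neg]
    exact hl.2.1
  have hU : IsOpen (⋂ l ∈ {l : E n | l ∈ L ∧ ‖l‖ ≤ R ∧ l ≠ 0},
      {y : E n | 2 * inner ℝ y l < ‖l‖ ^ 2}) :=
    hfin.isOpen_biInter fun l _ => isOpen_lt (by fun_prop) continuous_const
  have ho : u ∈ ⋂ l ∈ {l : E n | l ∈ L ∧ ‖l‖ ≤ R ∧ l ≠ 0},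
      {y : E n | 2 * inner ℝ y l < ‖l‖ ^ 2} := by
    rw [Set.mem_iInter₂]
    exact fun l hl => h l hl.1 hl.2.2
  obtain ⟨ε, hε, hball⟩ := Metric.isOpen_iff.1 hU u ho
  refine ⟨min ε 1, lt_min hε one_pos, fun e he l hl h0 => ?_⟩
  by_cases hlR : ‖l‖ ≤ R
  · have h3 : u + e ∈ Metric.ball u ε := by
      rw [mem_ball_iff_norm, add_sub_cancel_left]
      exact he.trans_le (min_le_left _ _)
    have h4 := hball h3
    rw [Set.mem_iInter₂] at h4
    exact h4 l ⟨hl, hlR, h0⟩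
  · push Not at hlR
    have h3 := real_inner_le_norm (u + e) l
    have h4 : ‖u + e‖ ≤ ‖u‖ + 1 :=
      (norm_add_le _ _).trans (by linarith [he.trans_le (min_le_right ε 1)])
    have h5 : ‖u + e‖ * ‖l‖ ≤ (‖u‖ + 1) * ‖l‖ := mul_le_mul_of_nonneg_right h4 (norm_nonneg _)
    have h6 : 0 < ‖l‖ := norm_pos_iff.2 h0
    nlinarith

/-- A point of the cell of gauge at least `1` is on a facet. -/
lemma exists_face [DiscreteTopology L] {u : E n} (hu : u ∈ Vor L) (hg : 1 ≤ gauge (Vor L) u) :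
    ∃ m ∈ L, m ≠ 0 ∧ 2 * inner ℝ u m = ‖m‖ ^ 2 := by
  by_contra hcon
  push Not at hcon
  have h1 : ∀ l ∈ L, l ≠ 0 → 2 * inner ℝ u l < ‖l‖ ^ 2 := fun l hl h0 =>
    lt_of_le_of_ne (mem_vor.1 hu l hl) (hcon l hl h0)
  obtain ⟨ε, hε, he⟩ := gap_gen h1
  have h2 : u ∈ interior (Vor L) := by
    rw [mem_interior_iff_mem_nhds]
    refine Filter.mem_of_superset (Metric.ball_mem_nhds u hε) ?_
    intro x hx
    rw [mem_ball_iff_norm] at hx
    refine mem_vor.2 fun l hl => ?_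
    by_cases h0 : l = 0
    · rw [h0]
      simp
    · have := he (x - u) hx l hl h0
      rw [add_sub_cancel] at this
      exact this.le
  have h3 : Vor L ∈ 𝓝 (0 : E n) := mem_interior_iff_mem_nhds.1 (vor_int L)
  have h4 := (gauge_lt_one_iff_mem_interior vor_convex h3).2 h2
  linarith

/-- Two points of the cell at distance at least `2` are on opposite facets. -/
lemma exists_opposite [DiscreteTopology L] {x y : E n} (hx : x ∈ Vor L) (hy : y ∈ Vor L)
    (hg : 2 ≤ gauge (Vor L) (x - y)) :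
    ∃ m, Rel L m ∧ 2 * inner ℝ x m = ‖m‖ ^ 2 ∧ 2 * inner ℝ y (-m) = ‖m‖ ^ 2 := by
  have h1 : 1 ≤ gauge (Vor L) ((1 / 2 : ℝ) • (x - y)) := by
    rw [gauge_smul_of_nonneg (by norm_num), smul_eq_mul]
    linarith
  obtain ⟨m, hm, hm0, h2⟩ := exists_face (vor_half hx hy) h1
  rw [real_inner_smul_left, inner_sub_left] at h2
  have h3 := mem_vor.1 hx m hm
  have h4 := mem_vor.1 hy (-m) (L.neg_mem hm)
  rw [norm_neg, inner_neg_right] at h4
  have h5 : 2 * inner ℝ x m = ‖m‖ ^ 2 := by linarith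
  refine ⟨m, rel_of_face hx hm hm0 h5, h5, ?_⟩
  rw [inner_neg_right]
  linarith

lemma exists_pos_lt {ι : Type*} {S : Set ι} (hS : S.Finite) {f : ι → ℝ}
    (hf : ∀ i ∈ S, 0 < f i) : ∃ ε : ℝ, 0 < ε ∧ ∀ i ∈ S, ε < f i := by
  rcases S.eq_empty_or_nonempty with rfl | hne
  · exact ⟨1, one_pos, fun i hi => absurd hi (Set.notMem_empty i)⟩
  · obtain ⟨i0, hi0, hmin⟩ := Set.exists_min_image S f hS hne
    refine ⟨f i0 / 2, half_pos (hf i0 hi0), fun i hi => ?_⟩
    have h1 := hmin i hi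
    have h2 := hf i0 hi0
    linarith

lemma kept_finite [DiscreteTopology L] [IsZLattice ℝ L] (a b y : E n) :
    {w : E n | Kept L a b y w}.Finite := by
  obtain ⟨R, hR⟩ := vor_bdd L
  have h1 : {l : E n | l ∈ L ∧ ‖(2 : ℝ) • y - l‖ ≤ 2 * R}.Finite := fin_ball L _ _
  refine (h1.image (fun l => l - (2 : ℝ) • y)).subset ?_
  rintro w ⟨⟨l, hl, rfl⟩, hw, -⟩
  refine ⟨l, ⟨hl, ?_⟩, rfl⟩
  have h2 := hR _ hw
  rw [norm_smul, norm_sub_rev] at h2
  norm_num at h2
  linarith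

theorem pieces [DiscreteTopology L] [IsZLattice ℝ L] {a b y : E n} (T : Tri L a b y) :
    ∃ P : {w : E n // Kept L a b y w} → Set (E n), (∀ z ∈ Vor L, ∃ w, z ∈ P w) ∧
      (∀ w, P w ⊆ Vor L) ∧
      ∀ w, ∃ c : ℝ, c < 2 ∧ ∀ x ∈ P w, ∀ z ∈ P w, gauge (Vor L) (x - z) ≤ c := by
  classical
  have hW := kept_finite (L := L) a b y
  have hN := rel_finite L
  -- the uniform radius
  obtain ⟨r0, hr0, hr⟩ := exists_pos_lt
    (S := {p : E n × E n | (Kept L a b y p.1 ∧ Rel L p.2) ∧ inner ℝ p.1 p.2 ≠ 0})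
    (f := fun p => |inner ℝ p.1 p.2| / ‖p.2‖)
    ((hW.prod hN).subset fun p hp => ⟨hp.1.1, hp.1.2⟩)
    (fun p hp => div_pos (abs_pos.2 hp.2) (norm_pos_iff.2 hp.1.2.2.1))
  have hex : ∀ z ∈ Vor L, ∃ w, ∃ r : ℝ, Kept L a b y w ∧ z - w ∈ Vor L ∧ 0 < r ∧ r ≤ r0 ∧
      ∀ x, ‖x - z‖ ≤ r → ∀ m, Rel L m → Del a b w m → 2 * inner ℝ x m < ‖m‖ ^ 2 := by
    intro z hz
    obtain ⟨l, hl, hzl⟩ := vor_cover L (z + (2 : ℝ) • y)
    have hzl' : InTile L z (l - (2 : ℝ) • y) := by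
      unfold InTile
      have e : z - (l - (2 : ℝ) • y) = z + (2 : ℝ) • y - l := by abel
      rw [e]
      exact hzl
    obtain ⟨w, hw, hzw, hs⟩ := step2 T hz ⟨l, hl, rfl⟩ hzl'
    have hU : IsOpen (⋂ m ∈ {m : E n | Rel L m ∧ Del a b w m},
        {x : E n | 2 * inner ℝ x m < ‖m‖ ^ 2}) :=
      (hN.subset fun m hm => hm.1).isOpen_biInter fun m _ =>
        isOpen_lt (by fun_prop) continuous_const
    have hzU : z ∈ ⋂ m ∈ {m : E n | Rel L m ∧ Del a b w m},
        {x : E n | 2 * inner ℝ x m < ‖m‖ ^ 2} := by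
      rw [Set.mem_iInter₂]
      exact fun m hm => lt_of_le_of_ne (mem_vor.1 hz m hm.1.1) (hs m hm.2)
    obtain ⟨ε, hε, hball⟩ := Metric.isOpen_iff.1 hU z hzU
    refine ⟨w, min (ε / 2) r0, hw, hzw, lt_min (half_pos hε) hr0, min_le_right _ _, ?_⟩
    intro x hx m hm hd
    have h1 : x ∈ Metric.ball z ε := by
      rw [mem_ball_iff_norm]
      have := hx.trans (min_le_left _ _)
      linarith
    have h2 := hball h1
    rw [Set.mem_iInter₂] at h2
    exact h2 m ⟨hm, hd⟩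
  choose! W r hk htile hr1 hr2 hsafe using hex
  obtain ⟨t, htV, htc⟩ := (vor_compact L).elim_nhds_subcover (fun z => Metric.ball z (r z))
    (fun z hz => Metric.ball_mem_nhds z (hr1 z hz))
  set P : {w : E n // Kept L a b y w} → Set (E n) := fun w =>
    ⋃ z ∈ t.filter (fun z => W z = w.1), (Metric.closedBall z (r z) ∩ Vor L) with hP
  have hPc : ∀ w, IsCompact (P w) := fun w =>
    (t.filter (fun z => W z = w.1)).isCompact_biUnion fun z _ =>
      (isCompact_closedBall z (r z)).inter_right (vor_closed L)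
  have hPV : ∀ w, P w ⊆ Vor L := by
    intro w x hx
    simp only [hP, Set.mem_iUnion] at hx
    obtain ⟨z, -, hz⟩ := hx
    exact hz.2
  refine ⟨P, ?_, hPV, ?_⟩
  · intro z hz
    have h1 := htc hz
    simp only [Set.mem_iUnion] at h1
    obtain ⟨z0, hz0, hzz⟩ := h1
    refine ⟨⟨W z0, hk z0 (htV z0 hz0)⟩, ?_⟩
    simp only [hP, Set.mem_iUnion]
    exact ⟨z0, by simp [hz0], Metric.ball_subset_closedBall hzz, hz⟩
  · intro w
    have hlt : ∀ x ∈ P w, ∀ z ∈ P w, gauge (Vor L) (x - z) < 2 := by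
      intro x hx z hz
      by_contra hcon
      push Not at hcon
      obtain ⟨m, hm, hxm, hzm⟩ := exists_opposite (hPV w hx) (hPV w hz) hcon
      simp only [hP, Set.mem_iUnion] at hx hz
      obtain ⟨x0, hx0, hxx, -⟩ := hx
      obtain ⟨z0, hz0, hzz, -⟩ := hz
      rw [Finset.mem_filter] at hx0 hz0
      rw [Metric.mem_closedBall, dist_eq_norm] at hxx hzz
      have hx0V := htV x0 hx0.1
      have hz0V := htV z0 hz0.1
      -- the facet is parallel to the tile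
      have hmw : inner ℝ m w.1 = 0 := by
        by_contra hne
        have h1 := hr (w.1, m) ⟨⟨w.2, hm⟩, by
          change inner ℝ w.1 m ≠ 0
          rwa [real_inner_comm]⟩
        change r0 < |inner ℝ w.1 m| / ‖m‖ at h1
        have hm0 : 0 < ‖m‖ := norm_pos_iff.2 hm.2.1
        rw [lt_div_iff₀ hm0] at h1
        have h2 := mem_vor.1 (htile x0 hx0V) m hm.1
        have h3 := mem_vor.1 (htile z0 hz0V) (-m) (L.neg_mem hm.1)
        rw [hx0.2, inner_sub_left] at h2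
        rw [hz0.2, inner_sub_left, inner_neg_right, inner_neg_right, norm_neg] at h3
        have h4 : |inner ℝ (x - x0) m| ≤ r0 * ‖m‖ :=
          (abs_real_inner_le_norm _ _).trans
            (mul_le_mul_of_nonneg_right (hxx.trans (hr2 x0 hx0V)) (norm_nonneg _))
        have h5 : |inner ℝ (z - z0) m| ≤ r0 * ‖m‖ :=
          (abs_real_inner_le_norm _ _).trans
            (mul_le_mul_of_nonneg_right (hzz.trans (hr2 z0 hz0V)) (norm_nonneg _))
        rw [inner_sub_left] at h4 h5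
        rw [inner_neg_right] at hzm
        have h6 := abs_le.1 h4
        have h7 := abs_le.1 h5
        rcases abs_cases (inner ℝ w.1 m) with h8 | h8 <;> rw [h8.1] at h1 <;> linarith
      rcases step5 T w.2.1 hm hmw with h1 | h1
      · have h2 := hsafe x0 hx0V x hxx m hm (by rw [hx0.2]; exact h1)
        linarith
      · have h2 := hsafe z0 hz0V z hzz (-m) (rel_neg hm) (by rw [hz0.2]; exact h1)
        rw [norm_neg] at h2
        linarith
    rcases (P w).eq_empty_or_nonempty with h0 | hne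
    · refine ⟨0, by norm_num, fun x hx => ?_⟩
      rw [h0] at hx
      exact absurd hx (Set.notMem_empty x)
    · have h3 : Vor L ∈ 𝓝 (0 : E n) := mem_interior_iff_mem_nhds.1 (vor_int L)
      have hcg : Continuous (gauge (Vor L)) := continuous_gauge vor_convex h3
      obtain ⟨p, hp, hmax⟩ := ((hPc w).prod (hPc w)).exists_isMaxOn (hne.prod hne)
        (f := fun p : E n × E n => gauge (Vor L) (p.1 - p.2)) (by fun_prop)
      exact ⟨gauge (Vor L) (p.1 - p.2), hlt p.1 hp.1 p.2 hp.2,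
        fun x hx z hz => hmax (⟨hx, hz⟩ : (x, z) ∈ P w ×ˢ P w)⟩

end Pool.Agent.TN
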