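import Mathlib
import Pool.Agent.TN.VSafe

/-!
# The number of pieces
-/

set_option autoImplicit false

open MeasureTheory Set Filter
open scoped Pointwise Topology

namespace Pool.Agent.TN

open Pool.Agent.Rog (E SymBody)

variable {n : ℕ} {L : Submodule ℤ (E n)}

/-- Classes modulo `2 L`. -/
lemma exists_parity [DiscreteTopology L] [IsZLattice ℝ L] :
    ∃ π : L → (Fin n → ZMod 2), (∀ l l', π l = π l' → ∃ k ∈ L, (l' : E n) = l - (2 : ℝ) • k) ∧
      ∀ l, π l = 0 → ∃ k ∈ L, (l : E n) = (2 : ℝ) • k := by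
  have hfree : Module.Free ℤ L := ZLattice.module_free ℝ L
  have hfin : Module.Finite ℤ L := ZLattice.module_finite ℝ L
  have hrank : Module.finrank ℤ L = n := by
    rw [ZLattice.rank ℝ L]
    simp
  let b : Module.Basis (Fin n) ℤ L := Module.finBasisOfFinrankEq ℤ L hrank
  have key : ∀ l : L, (∀ i, ((b.repr l i : ℤ) : ZMod 2) = 0) →
      ∃ k : L, (l : E n) = (2 : ℝ) • (k : E n) := by
    intro l hl
    have h1 : ∀ i, ∃ c : ℤ, b.repr l i = 2 * c := by
      intro i
      have := (ZMod.intCast_zmod_eq_zero_iff_dvd (b.repr l i) 2).1 (hl i)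
      obtain ⟨c, hc⟩ := this
      exact ⟨c, by exact_mod_cast hc⟩
    choose c hc using h1
    refine ⟨∑ i, c i • b i, ?_⟩
    have h2 : l = (2 : ℤ) • ∑ i, c i • b i := by
      conv_lhs => rw [← b.sum_repr l]
      rw [Finset.smul_sum]
      refine Finset.sum_congr rfl fun i _ => ?_
      rw [hc i, smul_smul]
    have h3 := congrArg (fun x : L => (x : E n)) h2
    simp only [Submodule.coe_smul] at h3
    rw [h3, ← Int.cast_smul_eq_zsmul ℝ]
    norm_num
  refine ⟨fun l i => ((b.repr l i : ℤ) : ZMod 2), ?_, ?_⟩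
  · intro l l' h
    obtain ⟨k, hk⟩ := key (l - l') (fun i => by
      have h1 := congrFun h i
      simp only [map_sub, Finsupp.coe_sub, Pi.sub_apply]
      push_cast
      rw [sub_eq_zero]
      exact h1)
    refine ⟨k, k.2, ?_⟩
    rw [← hk]
    simp
  · intro l h
    obtain ⟨k, hk⟩ := key l (fun i => congrFun h i)
    exact ⟨k, k.2, hk⟩

theorem exists_label [DiscreteTopology L] [IsZLattice ℝ L] {a b y : E n} (T : Tri L a b y) :
    ∃ φ : {w : E n // Kept L a b y w} → Fin (2 ^ n - 1), Function.Injective φ := by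
  classical
  obtain ⟨π, hπ, hπ0⟩ := exists_parity (L := L)
  have hl : ∀ w : {w : E n // Kept L a b y w}, ∃ l : L, w.1 = (l : E n) - (2 : ℝ) • y := by
    intro w
    obtain ⟨l, hl, hw⟩ := w.2.1
    exact ⟨⟨l, hl⟩, hw⟩
  choose lam hlam using hl
  set ψ : {w : E n // Kept L a b y w} → {v : Fin n → ZMod 2 // v ≠ 0} := fun w =>
    ⟨π (lam w), fun h0 => by
      obtain ⟨k, hk, hlk⟩ := hπ0 _ h0
      have h1 := w.2
      rw [hlam w, hlk] at h1
      exact step4 T hk h1⟩ with hψ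
  have hinj : Function.Injective ψ := by
    intro w w' h
    have h1 : π (lam w) = π (lam w') := congrArg Subtype.val h
    obtain ⟨k, hk, hlk⟩ := hπ _ _ h1
    have h2 : w'.1 = w.1 - (2 : ℝ) • k := by
      rw [hlam w', hlam w, hlk]
      abel
    exact Subtype.ext (step3 T w.2 w'.2 hk h2).symm
  have hcard : Fintype.card {v : Fin n → ZMod 2 // v ≠ 0} = 2 ^ n - 1 := by
    rw [Fintype.card_subtype_compl, Fintype.card_fun, Fintype.card_fin, ZMod.card,
      Fintype.card_subtype_eq]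
  let e := Fintype.equivFinOfCardEq hcard
  exact ⟨e ∘ ψ, e.injective.comp hinj⟩

theorem self_parts [DiscreteTopology L] [IsZLattice ℝ L] {a b y : E n} (T : Tri L a b y) :
    ∃ A : Fin (2 ^ n - 1) → Set (E n), (⋃ i, A i) = Vor L ∧
      ∀ i, ∃ c : ℝ, c < 2 ∧ ∀ x ∈ A i, ∀ z ∈ A i, gauge (Vor L) (x - z) ≤ c := by
  obtain ⟨P, h1, h2, h3⟩ := pieces T
  obtain ⟨φ, hφ⟩ := exists_label T
  refine ⟨fun i => {x | ∃ w, φ w = i ∧ x ∈ P w}, ?_, ?_⟩
  · ext x
    rw [Set.mem_iUnion]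
    constructor
    · rintro ⟨i, w, -, hx⟩
      exact h2 w hx
    · intro hx
      obtain ⟨w, hw⟩ := h1 x hx
      exact ⟨φ w, w, rfl, hw⟩
  · intro i
    by_cases hi : ∃ w, φ w = i
    · obtain ⟨w, hw⟩ := hi
      obtain ⟨c, hc, hcP⟩ := h3 w
      refine ⟨c, hc, ?_⟩
      rintro x ⟨w1, hw1, hx⟩ z ⟨w2, hw2, hz⟩
      have e1 : w1 = w := hφ (hw1.trans hw.symm)
      have e2 : w2 = w := hφ (hw2.trans hw.symm)
      subst e1 e2
      exact hcP x hx z hz
    · refine ⟨0, by norm_num, ?_⟩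
      rintro x ⟨w, hw, -⟩
      exact absurd ⟨w, hw⟩ hi

end Pool.Agent.TN
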