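import Mathlib
import Pool.Agent.TN.VTri

/-!
# The cell of a rectangular lattice is a box
-/

set_option autoImplicit false

open MeasureTheory Set Filter
open scoped Pointwise Topology

namespace Pool.Agent.TN

open Pool.Agent.Rog (E SymBody)

variable {n : ℕ} {L : Submodule ℤ (E n)}

lemma split_orth {s t : E n} (hs : Split L s) (ht : Split L t) (h1 : t ≠ s) (h2 : t ≠ -s) :
    inner ℝ s t = 0 := by
  obtain ⟨k, hk⟩ := hs.2.2 t ht.1
  obtain ⟨j, hj⟩ := ht.2.2 s hs.1
  rw [real_inner_comm] at hj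
  have hs0 : 0 < ‖s‖ ^ 2 := by
    have := norm_pos_iff.2 hs.2.1
    positivity
  have ht0 : 0 < ‖t‖ ^ 2 := by
    have := norm_pos_iff.2 ht.2.1
    positivity
  by_contra hne
  have hCS : inner ℝ s t ^ 2 ≤ ‖s‖ ^ 2 * ‖t‖ ^ 2 := by
    have h3 := abs_real_inner_le_norm s t
    have h4 := pow_le_pow_left₀ (abs_nonneg _) h3 2
    rwa [sq_abs, mul_pow] at h4
  have h5 : inner ℝ s t ^ 2 = (k * j : ℤ) * (‖s‖ ^ 2 * ‖t‖ ^ 2) := by
    push_cast
    calc inner ℝ s t ^ 2 = inner ℝ s t * inner ℝ s t := by ring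
      _ = (k * ‖s‖ ^ 2) * (j * ‖t‖ ^ 2) := by rw [← hk, ← hj]
      _ = _ := by ring
  have hprod : 0 < ‖s‖ ^ 2 * ‖t‖ ^ 2 := mul_pos hs0 ht0
  have h6 : ((k * j : ℤ) : ℝ) ≤ 1 := by
    rw [h5] at hCS
    by_contra hc
    push Not at hc
    nlinarith
  have h7 : (0 : ℝ) < ((k * j : ℤ) : ℝ) := by
    have h8 : 0 < inner ℝ s t ^ 2 := by positivity
    rw [h5] at h8
    exact (pos_iff_pos_of_mul_pos h8).2 hprod
  have h9 : k * j = 1 := by
    have h10 : k * j ≤ 1 := by exact_mod_cast h6
    have h11 : 0 < k * j := by exact_mod_cast h7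
    omega
  rcases Int.mul_eq_one_iff_eq_one_or_neg_one.1 h9 with ⟨hk1, hj1⟩ | ⟨hk1, hj1⟩
  · rw [hk1, Int.cast_one, one_mul] at hk
    rw [hj1, Int.cast_one, one_mul] at hj
    apply h1
    have h10 : ‖t - s‖ ^ 2 = 0 := by
      rw [norm_sub_sq_real, real_inner_comm, hk, ← hj, hk]
      ring
    have h11 : t - s = 0 := by
      rw [← norm_eq_zero]
      exact pow_eq_zero_iff (two_ne_zero) |>.1 h10
    exact sub_eq_zero.1 h11
  · rw [hk1] at hk
    rw [hj1] at hj
    push_cast at hk hj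
    apply h2
    have h10 : ‖t + s‖ ^ 2 = 0 := by
      rw [norm_add_sq_real, real_inner_comm]
      linarith
    have h11 : t + s = 0 := by
      rw [← norm_eq_zero]
      exact pow_eq_zero_iff (two_ne_zero) |>.1 h10
    exact eq_neg_of_add_eq_zero_left h11

lemma int_mul_le {k : ℤ} {r : ℝ} (hr : |r| ≤ 1 / 2) : 2 * (k * r) ≤ (k : ℝ) ^ 2 := by
  have h1 : |(k : ℝ)| ≤ (k : ℝ) ^ 2 := by
    have h2 : |k| ≤ k ^ 2 := by
      rw [← sq_abs k]
      have h3 := abs_nonneg k
      rcases eq_or_lt_of_le h3 with h4 | h4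
      · rw [← h4]
        norm_num
      · nlinarith
    exact_mod_cast h2
  have h3 : (k : ℝ) * r ≤ |(k : ℝ)| * (1 / 2) := by
    refine (le_abs_self _).trans ?_
    rw [abs_mul]
    exact mul_le_mul_of_nonneg_left hr (abs_nonneg _)
  linarith

theorem rect [DiscreteTopology L] [IsZLattice ℝ L]
    (H : ∀ a ∈ L, (∀ s, Split L s → inner ℝ s a = 0) → a = 0) :
    ∃ s : Module.Basis (Fin n) ℝ (E n), ∀ x, x ∈ Vor L ↔ ∀ i, |s.repr x i| ≤ 1 / 2 := by
  classical
  obtain ⟨B, hBS, hspan, hlin⟩ := exists_linearIndependent ℝ {s : E n | Split L s}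
  have hBfin : Finite B := hlin.setFinite
  have : Fintype B := Fintype.ofFinite B
  have horth : ∀ s t : B, s ≠ t → inner ℝ (s : E n) (t : E n) = 0 := by
    intro s t hst
    refine split_orth (hBS s.2) (hBS t.2) (fun h => hst (Subtype.ext h.symm)) ?_
    intro h
    have h1 := (linearIndependent_iff'.1 hlin) {s, t} (fun _ => 1) (by
      rw [Finset.sum_pair hst, one_smul, one_smul, h]
      exact add_neg_cancel _) s (by simp)
    exact one_ne_zero h1
  have hdec : ∀ l ∈ L, ∃ k : B → ℤ, l = ∑ s : B, (k s : ℝ) • (s : E n) := by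
    intro l hl
    have h1 : ∀ s : B, ∃ k : ℤ, inner ℝ (s : E n) l = k * ‖(s : E n)‖ ^ 2 :=
      fun s => (hBS s.2).2.2 l hl
    choose k hk using h1
    refine ⟨k, ?_⟩
    set l' := l - ∑ s : B, (k s : ℝ) • (s : E n) with hl'
    have hl'L : l' ∈ L := L.sub_mem hl (L.sum_mem fun s _ => smul_int_mem (hBS s.2).1 (k s))
    have h2 : ∀ s : B, inner ℝ l' (s : E n) = 0 := by
      intro s
      rw [hl', inner_sub_left, sum_inner, Finset.sum_eq_single s]
      · rw [real_inner_smul_left, real_inner_self_eq_norm_sq, real_inner_comm, hk, sub_self]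
      · intro t _ hts
        rw [real_inner_smul_left, horth t s hts, mul_zero]
      · intro hs
        exact absurd (Finset.mem_univ s) hs
    have h3 : Submodule.span ℝ B ≤ LinearMap.ker (innerₛₗ ℝ l') := by
      rw [Submodule.span_le]
      intro s hs
      exact h2 ⟨s, hs⟩
    have h4 : l' = 0 := by
      refine H l' hl'L fun s hs => ?_
      have h5 : s ∈ Submodule.span ℝ B := by
        rw [hspan]
        exact Submodule.subset_span hs
      have h6 : inner ℝ l' s = 0 := h3 h5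
      rwa [real_inner_comm]
    exact sub_eq_zero.1 h4
  have htop : ⊤ ≤ Submodule.span ℝ (Set.range ((↑) : B → E n)) := by
    rw [← IsZLattice.span_top (K := ℝ) (L := L), Submodule.span_le]
    intro l hl
    obtain ⟨k, hk⟩ := hdec l hl
    rw [hk]
    exact Submodule.sum_mem _ fun s _ => Submodule.smul_mem _ _ (Submodule.subset_span ⟨s, rfl⟩)
  let b0 : Module.Basis B ℝ (E n) := Module.Basis.mk hlin htop
  have hcard : Fintype.card B = n := by
    rw [← Module.finrank_eq_card_basis b0]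
    simp
  let e : B ≃ Fin n := Fintype.equivFinOfCardEq hcard
  have hb0 : ∀ s : B, b0 s = (s : E n) := fun s => by simp [b0]
  have hval : ∀ x (s : B), inner ℝ x (s : E n) = b0.repr x s * ‖(s : E n)‖ ^ 2 := by
    intro x s
    conv_lhs => rw [← b0.sum_repr x]
    rw [sum_inner, Finset.sum_eq_single s]
    · rw [real_inner_smul_left, hb0, real_inner_self_eq_norm_sq]
    · intro t _ hts
      rw [real_inner_smul_left, hb0, horth t s hts, mul_zero]
    · intro hs
      exact absurd (Finset.mem_univ s) hs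
  refine ⟨b0.reindex e, fun x => ?_⟩
  have hre : (∀ i, |(b0.reindex e).repr x i| ≤ 1 / 2) ↔ ∀ s : B, |b0.repr x s| ≤ 1 / 2 := by
    constructor
    · intro h s
      have := h (e s)
      rwa [Module.Basis.repr_reindex_apply, Equiv.symm_apply_apply] at this
    · intro h i
      rw [Module.Basis.repr_reindex_apply]
      exact h _
  rw [hre, mem_vor]
  constructor
  · intro h s
    have hs0 : 0 < ‖(s : E n)‖ ^ 2 := by
      have := norm_pos_iff.2 (hBS s.2).2.1
      positivity
    have h1 := h s (hBS s.2).1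
    have h2 := h (-(s : E n)) (L.neg_mem (hBS s.2).1)
    rw [inner_neg_right, norm_neg] at h2
    rw [hval] at h1 h2
    rw [abs_le]
    constructor <;> by_contra hc <;> push Not at hc <;> nlinarith
  · intro h l hl
    obtain ⟨k, hk⟩ := hdec l hl
    have h1 : inner ℝ x l = ∑ s : B, (k s : ℝ) * (b0.repr x s * ‖(s : E n)‖ ^ 2) := by
      rw [hk, inner_sum]
      refine Finset.sum_congr rfl fun s _ => ?_
      rw [inner_smul_right, hval]
    have h2 : ‖l‖ ^ 2 = ∑ s : B, (k s : ℝ) ^ 2 * ‖(s : E n)‖ ^ 2 := by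
      rw [← real_inner_self_eq_norm_sq]
      conv_lhs => rw [hk]
      rw [sum_inner]
      refine Finset.sum_congr rfl fun s _ => ?_
      rw [real_inner_smul_left, inner_sum, Finset.sum_eq_single s]
      · rw [inner_smul_right, real_inner_self_eq_norm_sq]
        ring
      · intro t _ hts
        rw [inner_smul_right, horth s t (Ne.symm hts), mul_zero]
      · intro hs
        exact absurd (Finset.mem_univ s) hs
    rw [h1, h2, Finset.mul_sum]
    refine Finset.sum_le_sum fun s _ => ?_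
    have h3 := int_mul_le (k := k s) (h s)
    have h4 := mul_le_mul_of_nonneg_right h3 (sq_nonneg ‖(s : E n)‖)
    linarith

/-- Linear images of the cube. -/
theorem rect_image [DiscreteTopology L] [IsZLattice ℝ L]
    (H : ∀ a ∈ L, (∀ s, Split L s → inner ℝ s a = 0) → a = 0) :
    ∃ A : E n ≃ₗ[ℝ] E n, Vor L = A '' {x : E n | ∀ i, |x i| ≤ 1 / 2} := by
  obtain ⟨s, hs⟩ := rect H
  let A : E n ≃ₗ[ℝ] E n := (WithLp.linearEquiv 2 ℝ (Fin n → ℝ)).trans s.equivFun.symm
  have hA : ∀ x : E n, ∀ i, s.repr (A x) i = x i := by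
    intro x i
    have h1 : s.equivFun (A x) = (WithLp.linearEquiv 2 ℝ (Fin n → ℝ)) x :=
      s.equivFun.apply_symm_apply _
    exact congrFun h1 i
  refine ⟨A, ?_⟩
  ext z
  constructor
  · intro hz
    have h1 := (hs z).1 hz
    refine ⟨A.symm z, fun i => ?_, A.apply_symm_apply z⟩
    have h2 := hA (A.symm z) i
    rw [LinearEquiv.apply_symm_apply] at h2
    rw [← h2]
    exact h1 i
  · rintro ⟨x, hx, rfl⟩
    refine (hs _).2 fun i => ?_
    rw [hA]
    exact hx i

end Pool.Agent.TN
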